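import Mathlib

set_option autoImplicit false

/-!
# Rooted trees and walks along perfect matchings
-/

namespace Pool.Agent.Lib.MP_c5b475_co

open Finset

/-- A rooted tree: root `c`, parents and depths. -/
structure RT {U : Type*} (T : SimpleGraph U) where
  c : U
  par : U → U
  dep : U → ℕ
  dep_c : dep c = 0
  dep_par : ∀ u, u ≠ c → dep (par u) + 1 = dep u
  adj_iff : ∀ x y, T.Adj x y ↔ (x ≠ c ∧ y = par x) ∨ (y ≠ c ∧ x = par y)

theorem exists_par {U : Type*} {T : SimpleGraph U} (hT : T.Connected) (c u : U) (hu : u ≠ c) :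
    ∃ p, T.Adj u p ∧ T.dist c p + 1 = T.dist c u := by
  obtain ⟨p, hp⟩ := hT.exists_walk_length_eq_dist u c
  cases p with
  | nil => exact absurd rfl hu
  | cons h q =>
    rename_i w
    refine ⟨w, h, ?_⟩
    rw [SimpleGraph.Walk.length_cons] at hp
    have h1 : T.dist w c ≤ q.length := SimpleGraph.dist_le q
    have h2 : T.dist u c ≤ T.dist u w + T.dist w c := hT.dist_triangle
    have h3 : T.dist u w = 1 := SimpleGraph.dist_eq_one_iff_adj.mpr h
    rw [SimpleGraph.dist_comm (u := c) (v := w), SimpleGraph.dist_comm (u := c) (v := u)]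
    omega

/-- A finite tree can be rooted at any vertex. -/
theorem exists_RT {U : Type*} [Fintype U] [DecidableEq U] {T : SimpleGraph U} (hT : T.IsTree)
    (c : U) : ∃ R : RT T, R.c = c ∧ R.dep = T.dist c := by
  classical
  have hconn : T.Connected := hT.connected
  let par : U → U := fun u => if h : u ≠ c then (exists_par hconn c u h).choose else c
  have hpar : ∀ u, u ≠ c → T.Adj u (par u) ∧ T.dist c (par u) + 1 = T.dist c u := by
    intro u hu
    simp only [par, dif_pos hu]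
    exact (exists_par hconn c u hu).choose_spec
  let F : {u : U // u ≠ c} → T.edgeFinset := fun u => ⟨s(u.1, par u.1), by
    rw [SimpleGraph.mem_edgeFinset]
    exact (hpar u.1 u.2).1⟩
  have hinj : Function.Injective F := by
    rintro ⟨u, hu⟩ ⟨v, hv⟩ h
    simp only [F, Subtype.mk.injEq, Sym2.eq_iff] at h
    rcases h with ⟨h, _⟩ | ⟨h1, h2⟩
    · exact Subtype.ext h
    · exfalso
      have e1 := (hpar u hu).2
      have e2 := (hpar v hv).2
      rw [← h1] at e2
      rw [h2] at e1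
      omega
  have hcard : Fintype.card {u : U // u ≠ c} = Fintype.card T.edgeFinset := by
    have h1 := hT.card_edgeFinset
    rw [Fintype.card_coe]
    rw [Fintype.card_subtype_compl, Fintype.card_subtype_eq]
    omega
  have hsurj : Function.Surjective F :=
    ((Fintype.bijective_iff_injective_and_card F).mpr ⟨hinj, hcard⟩).2
  refine ⟨⟨c, par, T.dist c, SimpleGraph.dist_self, fun u hu => (hpar u hu).2, ?_⟩, rfl, rfl⟩
  intro x y
  constructor
  · intro hxy
    obtain ⟨⟨u, hu⟩, he⟩ := hsurj ⟨s(x, y), by rw [SimpleGraph.mem_edgeFinset]; exact hxy⟩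
    simp only [F, Subtype.mk.injEq, Sym2.eq_iff] at he
    rcases he with ⟨h1, h2⟩ | ⟨h1, h2⟩
    · left
      exact ⟨by rw [← h1]; exact hu, by rw [← h1, h2]⟩
    · right
      exact ⟨by rw [← h1]; exact hu, by rw [← h1, h2]⟩
  · rintro (⟨h1, h2⟩ | ⟨h1, h2⟩)
    · rw [h2]; exact (hpar x h1).1
    · rw [h2]; exact (hpar y h1).1.symm

namespace RT

variable {U : Type*} [DecidableEq U] {T : SimpleGraph U} (R : RT T)

omit [DecidableEq U] in
theorem adj_par {u : U} (hu : u ≠ R.c) : T.Adj u (R.par u) :=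
  (R.adj_iff _ _).mpr (Or.inl ⟨hu, rfl⟩)

variable {V : Type*} (m : {u : U // u ≠ R.c} → V → V)

/-- The image of the tree walked along the matchings `m` starting with the root at `v`. -/
def phi (v : V) (u : U) : V :=
  if h : u = R.c then v else m ⟨u, h⟩ (phi v (R.par u))
termination_by R.dep u
decreasing_by
  have := R.dep_par u h
  omega

theorem phi_c (v : V) : R.phi m v R.c = v := by
  rw [phi]; simp

theorem phi_ne (v : V) {u : U} (h : u ≠ R.c) :
    R.phi m v u = m ⟨u, h⟩ (R.phi m v (R.par u)) := by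
  rw [phi]; simp [h]

/-- Induction along parents. -/
theorem ind {P : U → Prop} (h0 : P R.c) (h1 : ∀ u, u ≠ R.c → P (R.par u) → P u) :
    ∀ u, P u := by
  intro u
  induction hn : R.dep u using Nat.strong_induction_on generalizing u with
  | _ n ih =>
    by_cases hu : u = R.c
    · rw [hu]; exact h0
    · apply h1 u hu
      have := R.dep_par u hu
      exact ih (R.dep (R.par u)) (by omega) _ rfl

theorem phi_inj (hm : ∀ i v, m i (m i v) = v) (u : U) :
    Function.Injective (fun v => R.phi m v u) := by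
  refine R.ind (P := fun u => Function.Injective (fun v => R.phi m v u)) ?_ ?_ u
  · intro v v' h
    simpa [phi_c] using h
  · intro u hu ih v v' h
    simp only [R.phi_ne m _ hu] at h
    apply ih
    have := congrArg (m ⟨u, hu⟩) h
    simpa [hm] using this

theorem side_phi {s : V → ZMod 2} (hs : ∀ i v, s (m i v) = s v + 1) (v : V) (u : U) :
    s (R.phi m v u) = s v + (R.dep u : ZMod 2) := by
  refine R.ind (P := fun u => s (R.phi m v u) = s v + (R.dep u : ZMod 2)) ?_ ?_ u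
  · rw [phi_c, R.dep_c]; simp
  · intro u hu ih
    rw [R.phi_ne m v hu, hs, ih, ← R.dep_par u hu]
    push_cast
    ring

section walks

variable {G : SimpleGraph V}

/-- The part of the tree of depth at most `ρ`. -/
def inner (ρ : ℕ) : SimpleGraph U where
  Adj x y := T.Adj x y ∧ R.dep x ≤ ρ ∧ R.dep y ≤ ρ
  symm := ⟨fun _ _ h => ⟨h.1.symm, h.2.2, h.2.1⟩⟩
  loopless := ⟨fun v h => T.loopless.irrefl v h.1⟩

theorem exists_root_walk (ρ : ℕ) : ∀ u, R.dep u ≤ ρ →
    ∃ p : (R.inner ρ).Walk u R.c, p.length = R.dep u := by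
  refine R.ind (P := fun u => R.dep u ≤ ρ →
    ∃ p : (R.inner ρ).Walk u R.c, p.length = R.dep u) ?_ ?_
  · intro _
    exact ⟨SimpleGraph.Walk.nil, by simp [R.dep_c]⟩
  · intro u hu ih hd
    have h1 := R.dep_par u hu
    obtain ⟨p, hp⟩ := ih (by omega)
    have hadj : (R.inner ρ).Adj u (R.par u) := ⟨R.adj_par hu, hd, by omega⟩
    refine ⟨SimpleGraph.Walk.cons hadj p, ?_⟩
    rw [SimpleGraph.Walk.length_cons, hp, h1]

theorem exists_inner_path (ρ : ℕ) {u w : U} (hu : R.dep u ≤ ρ) (hw : R.dep w ≤ ρ) :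
    ∃ p : (R.inner ρ).Walk u w, p.IsTrail ∧ p.length ≤ 2 * ρ := by
  obtain ⟨p, hp⟩ := R.exists_root_walk ρ u hu
  obtain ⟨q, hq⟩ := R.exists_root_walk ρ w hw
  refine ⟨(p.append q.reverse).bypass, (SimpleGraph.Walk.bypass_isPath _).isTrail, ?_⟩
  refine (SimpleGraph.Walk.length_bypass_le_length _).trans ?_
  rw [SimpleGraph.Walk.length_append, SimpleGraph.Walk.length_reverse, hp, hq]
  omega

/-- The walked image as a graph homomorphism. -/
def hom (h1 : ∀ i v, G.Adj v (m i v)) (ρ : ℕ) (v : V) : R.inner ρ →g G where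
  toFun := R.phi m v
  map_rel' := by
    intro x y hxy
    rcases (R.adj_iff x y).mp hxy.1 with ⟨hx, rfl⟩ | ⟨hy, rfl⟩
    · rw [R.phi_ne m v hx]
      exact (h1 _ _).symm
    · rw [R.phi_ne m v hy]
      exact h1 _ _

omit [DecidableEq U] in
/-- The colour of an edge is unique. -/
theorem colour_unique (h1 : ∀ i v, G.Adj v (m i v)) (h2 : ∀ i v, m i (m i v) = v)
    (h3 : ∀ u v, G.Adj u v → ∃! i, m i u = v) {i j : {u : U // u ≠ R.c}} {x y : V}
    (h : s(x, m i x) = s(y, m j y)) : i = j := by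
  rw [Sym2.eq_iff] at h
  rcases h with ⟨rfl, h⟩ | ⟨hx, hy⟩
  · exact (h3 x (m j x) (h1 j x)).unique h rfl
  · have : m j x = y := by rw [hx, h2]
    exact (h3 x y (by rw [← hy]; exact h1 i x)).unique hy this

omit [DecidableEq U] in
theorem inner_edge {ρ : ℕ} {e : Sym2 U} (he : e ∈ (R.inner ρ).edgeSet) :
    ∃ u : {u : U // u ≠ R.c}, R.dep u.1 ≤ ρ ∧ e = s(u.1, R.par u.1) := by
  induction e using Sym2.ind with
  | _ x y =>
    have h : (R.inner ρ).Adj x y := he
    rcases (R.adj_iff x y).mp h.1 with ⟨hx, rfl⟩ | ⟨hy, rfl⟩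
    · exact ⟨⟨x, hx⟩, h.2.1, rfl⟩
    · exact ⟨⟨y, hy⟩, h.2.2, Sym2.eq_swap⟩

/-- The walked image of a trail is a trail whose edges have inner colours. -/
theorem map_trail (h1 : ∀ i v, G.Adj v (m i v)) (h2 : ∀ i v, m i (m i v) = v)
    (h3 : ∀ u v, G.Adj u v → ∃! i, m i u = v) {ρ : ℕ} (v : V) {a b : U}
    (p : (R.inner ρ).Walk a b) (hp : p.IsTrail) :
    (p.map (R.hom m h1 ρ v)).IsTrail ∧
    ∀ e ∈ (p.map (R.hom m h1 ρ v)).edges, ∃ i : {u : U // u ≠ R.c}, R.dep i.1 ≤ ρ ∧
      ∃ x, e = s(x, m i x) := by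
  have key : ∀ e ∈ p.edges, ∃ u : {u : U // u ≠ R.c}, R.dep u.1 ≤ ρ ∧ e = s(u.1, R.par u.1) ∧
      Sym2.map (R.hom m h1 ρ v) e = s(R.phi m v (R.par u.1), m u (R.phi m v (R.par u.1))) := by
    intro e he
    obtain ⟨u, hu, rfl⟩ := R.inner_edge (p.edges_subset_edgeSet he)
    refine ⟨u, hu, rfl, ?_⟩
    rw [Sym2.map_mk]
    change s(R.phi m v u.1, R.phi m v (R.par u.1)) = _
    rw [R.phi_ne m v u.2]
    exact Sym2.eq_swap
  constructor
  · rw [SimpleGraph.Walk.isTrail_def, SimpleGraph.Walk.edges_map]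
    apply List.Nodup.map_on _ hp.edges_nodup
    intro e he e' he' h
    obtain ⟨u, _, e1, e2⟩ := key e he
    obtain ⟨u', _, e1', e2'⟩ := key e' he'
    rw [e2, e2'] at h
    have := R.colour_unique m h1 h2 h3 h
    subst this
    rw [e1, e1']
  · intro e he
    rw [SimpleGraph.Walk.edges_map, List.mem_map] at he
    obtain ⟨e', he', rfl⟩ := he
    obtain ⟨u, hu, _, e2⟩ := key e' he'
    exact ⟨u, hu, _, e2⟩

/-- Inner vertices have different images. -/
theorem phi_inner_ne (h1 : ∀ i v, G.Adj v (m i v)) (h2 : ∀ i v, m i (m i v) = v)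
    (h3 : ∀ u v, G.Adj u v → ∃! i, m i u = v) {ρ : ℕ} (hg : ((2 * ρ + 2 : ℕ) : ℕ∞) ≤ G.egirth)
    (v : V) {u w : U} (hu : R.dep u ≤ ρ) (hw : R.dep w ≤ ρ) (hne : u ≠ w) :
    R.phi m v u ≠ R.phi m v w := by
  intro h
  obtain ⟨p, hp, hl⟩ := R.exists_inner_path ρ hu hw
  have ht := (R.map_trail m h1 h2 h3 v p hp).1
  have h' : (R.hom m h1 ρ v) w = (R.hom m h1 ρ v) u := h.symm
  set q : G.Walk ((R.hom m h1 ρ v) u) ((R.hom m h1 ρ v) u) :=
    (p.map (R.hom m h1 ρ v)).copy rfl h' with hq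
  have hlen : q.length = p.length := by
    rw [hq, SimpleGraph.Walk.length_copy, SimpleGraph.Walk.length_map]
  have hc : q.IsCircuit := by
    rw [SimpleGraph.Walk.isCircuit_def]
    refine ⟨?_, ?_⟩
    · rw [hq, SimpleGraph.Walk.isTrail_copy]
      exact ht
    · intro hnil
      have h0 : q.length = 0 := by rw [hnil]; rfl
      rw [hlen] at h0
      exact hne (SimpleGraph.Walk.eq_of_length_eq_zero h0)
  have h4 := hc.egirth_le_length
  rw [hlen] at h4
  have h5 : ((2 * ρ + 2 : ℕ) : ℕ∞) ≤ (p.length : ℕ∞) := hg.trans h4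
  have h6 : 2 * ρ + 2 ≤ p.length := by exact_mod_cast h5
  omega

/-- An inner image is never joined to an inner image by an edge of outer colour. -/
theorem phi_outer_ne (h1 : ∀ i v, G.Adj v (m i v)) (h2 : ∀ i v, m i (m i v) = v)
    (h3 : ∀ u v, G.Adj u v → ∃! i, m i u = v) {ρ : ℕ} (hg : ((2 * ρ + 2 : ℕ) : ℕ∞) ≤ G.egirth)
    (v : V) {u w : U} (hu : R.dep u ≤ ρ) (hw : R.dep w ≤ ρ) {i : {u : U // u ≠ R.c}}
    (hi : ρ < R.dep i.1) : R.phi m v w ≠ m i (R.phi m v u) := by
  intro h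
  obtain ⟨p, hp, hl⟩ := R.exists_inner_path ρ hw hu
  obtain ⟨ht, hcol⟩ := R.map_trail m h1 h2 h3 v p hp
  have hadj : G.Adj ((R.hom m h1 ρ v) u) ((R.hom m h1 ρ v) w) := by
    change G.Adj (R.phi m v u) (R.phi m v w)
    rw [h]
    exact h1 i _
  have hc : (SimpleGraph.Walk.cons hadj (p.map (R.hom m h1 ρ v))).IsCircuit := by
    rw [SimpleGraph.Walk.isCircuit_def]
    refine ⟨?_, by simp⟩
    rw [SimpleGraph.Walk.isTrail_cons]
    refine ⟨ht, ?_⟩
    intro hmem
    obtain ⟨j, hj, x, hx⟩ := hcol _ hmem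
    have hx' : s(R.phi m v u, m i (R.phi m v u)) = s(x, m j x) := by
      rw [← h]; exact hx
    have := R.colour_unique m h1 h2 h3 hx'
    subst this
    omega
  have h4 := hc.egirth_le_length
  rw [SimpleGraph.Walk.length_cons, SimpleGraph.Walk.length_map] at h4
  have h5 : ((2 * ρ + 2 : ℕ) : ℕ∞) ≤ ((p.length + 1 : ℕ) : ℕ∞) := hg.trans h4
  have h6 : 2 * ρ + 2 ≤ p.length + 1 := by exact_mod_cast h5
  omega

end walks

end RT

end Pool.Agent.Lib.MP_c5b475_co
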