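import Mathlib

set_option autoImplicit false

/-!
# Regular bipartite graphs are 1-factorable
-/

namespace Pool.Agent.Lib.MP_c5b475_co

open Finset

section

variable {V : Type*} [Fintype V] [DecidableEq V]

/-- A regular bipartite graph of positive degree has a perfect matching. -/
theorem exists_matching (side : V → Bool) (n : ℕ) (hn : 0 < n) (G : SimpleGraph V)
    [DecidableRel G.Adj] (hd : ∀ v, G.degree v = n) (hs : ∀ u v, G.Adj u v → side u ≠ side v) :
    ∃ m : V → V, (∀ v, G.Adj v (m v)) ∧ ∀ v, m (m v) = v := by
  have hall : ∀ s : Finset V, s.card ≤ (s.biUnion (fun v => G.neighborFinset v)).card := by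
    intro s
    have h := card_mul_le_card_mul (s := s) (t := s.biUnion (fun v => G.neighborFinset v))
      (m := n) (n := n) (fun a b => G.Adj a b) (by
        intro a ha
        rw [← hd a, ← G.card_neighborFinset_eq_degree]
        apply card_le_card
        intro b hb
        rw [mem_bipartiteAbove]
        refine ⟨?_, by simpa using hb⟩
        rw [mem_biUnion]
        exact ⟨a, ha, hb⟩) (by
        intro b _
        rw [← hd b, ← G.card_neighborFinset_eq_degree]
        apply card_le_card
        intro a ha
        rw [mem_bipartiteBelow] at ha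
        simpa using ha.2.symm)
    exact Nat.le_of_mul_le_mul_right h hn
  obtain ⟨f, hf, hadj⟩ := (all_card_le_biUnion_card_iff_exists_injective _).mp hall
  let e := Equiv.ofBijective f (Finite.injective_iff_bijective.mp hf)
  have he : ∀ v, G.Adj v (e v) := fun v => by
    have := hadj v
    rw [SimpleGraph.mem_neighborFinset] at this
    exact this
  have he' : ∀ v, G.Adj v (e.symm v) := fun v => by
    have := he (e.symm v)
    rw [Equiv.apply_symm_apply] at this
    exact this.symm
  refine ⟨fun v => if side v = false then e v else e.symm v, ?_, ?_⟩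
  · intro v
    by_cases h : side v = false
    · simp only [if_pos h]; exact he v
    · simp only [if_neg h]; exact he' v
  · intro v
    by_cases h : side v = false
    · simp only [if_pos h]
      have h1 := hs _ _ (he v)
      rw [h] at h1
      rw [if_neg (fun h2 => h1 h2.symm), Equiv.symm_apply_apply]
    · simp only [if_neg h]
      have h1 := hs _ _ (he' v)
      have h2 : side (e.symm v) = false := by
        cases h3 : side (e.symm v)
        · rfl
        · rw [h3] at h1
          exact absurd (Bool.eq_true_of_not_eq_false h) h1
      rw [if_pos h2, Equiv.apply_symm_apply]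

/-- A regular bipartite graph is a union of disjoint perfect matchings. -/
theorem exists_factorization (side : V → Bool) : ∀ (n : ℕ) (G : SimpleGraph V)
    [DecidableRel G.Adj], (∀ v, G.degree v = n) → (∀ u v, G.Adj u v → side u ≠ side v) →
    ∃ m : Fin n → V → V, (∀ i v, G.Adj v (m i v)) ∧ (∀ i v, m i (m i v) = v) ∧
      ∀ u v, G.Adj u v → ∃! i, m i u = v := by
  intro n
  induction n with
  | zero =>
    intro G _ hd _
    refine ⟨fun i => i.elim0, fun i => i.elim0, fun i => i.elim0, ?_⟩
    intro u v huv
    exfalso
    have h1 := hd u
    rw [← G.card_neighborFinset_eq_degree, card_eq_zero] at h1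
    have h2 : v ∈ G.neighborFinset u := by simpa using huv
    rw [h1] at h2
    exact absurd h2 (notMem_empty _)
  | succ n ih =>
    intro G _ hd hs
    obtain ⟨m, hm1, hm2⟩ := exists_matching side (n + 1) (Nat.succ_pos n) G hd hs
    let G' : SimpleGraph V :=
      { Adj := fun u v => G.Adj u v ∧ m u ≠ v
        symm := ⟨fun u v h => ⟨h.1.symm, fun e => h.2 (by rw [← e, hm2])⟩⟩
        loopless := ⟨fun v h => G.loopless.irrefl v h.1⟩ }
    have hdec : DecidableRel G'.Adj := fun u v => inferInstanceAs (Decidable (G.Adj u v ∧ m u ≠ v))
    have hG' : ∀ u v, G'.Adj u v ↔ G.Adj u v ∧ m u ≠ v := fun u v => Iff.rfl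
    obtain ⟨m', h1, h2, h3⟩ := ih G' (by
      intro v
      have : G'.neighborFinset v = (G.neighborFinset v).erase (m v) := by
        ext w
        rw [SimpleGraph.mem_neighborFinset, hG', mem_erase, SimpleGraph.mem_neighborFinset]
        tauto
      rw [← G'.card_neighborFinset_eq_degree, this, card_erase_of_mem (by simpa using hm1 v),
        G.card_neighborFinset_eq_degree, hd v]
      rfl) (fun u v h => hs u v h.1)
    refine ⟨Fin.cons m m', ?_, ?_, ?_⟩
    · intro i
      refine Fin.cases ?_ ?_ i
      · intro v; exact hm1 v
      · intro i v; exact (h1 i v).1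
    · intro i
      refine Fin.cases ?_ ?_ i
      · intro v; exact hm2 v
      · intro i v; exact h2 i v
    · intro u v huv
      by_cases hmu : m u = v
      · refine ⟨0, hmu, ?_⟩
        intro i
        refine Fin.cases ?_ ?_ i
        · intro _; rfl
        · intro i hi
          exfalso
          have h4 := h1 i u
          have hi' : m' i u = v := hi
          rw [hi'] at h4
          exact h4.2 hmu
      · obtain ⟨i, hi, hu⟩ := h3 u v ⟨huv, hmu⟩
        refine ⟨i.succ, hi, ?_⟩
        intro j
        refine Fin.cases ?_ ?_ j
        · intro h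
          exact absurd h hmu
        · intro j hj
          rw [hu j hj]

/-- The factorization indexed by any type with the right number of elements. -/
theorem exists_factorization' (side : V → Bool) {W : Type*} [Fintype W] (G : SimpleGraph V)
    [DecidableRel G.Adj] (hd : ∀ v, G.degree v = Fintype.card W)
    (hs : ∀ u v, G.Adj u v → side u ≠ side v) :
    ∃ m : W → V → V, (∀ i v, G.Adj v (m i v)) ∧ (∀ i v, m i (m i v) = v) ∧
      ∀ u v, G.Adj u v → ∃! i, m i u = v := by
  obtain ⟨m, h1, h2, h3⟩ := exists_factorization side _ G hd hs
  let e := Fintype.equivFin W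
  refine ⟨fun w => m (e w), fun i v => h1 _ v, fun i v => h2 _ v, ?_⟩
  intro u v huv
  obtain ⟨i, hi, hu⟩ := h3 u v huv
  refine ⟨e.symm i, by simpa using hi, ?_⟩
  intro w hw
  rw [← hu (e w) hw, Equiv.symm_apply_apply]

end

end Pool.Agent.Lib.MP_c5b475_co
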