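import Pool.Agent.Lib.MP_c5b475_co.Galvin
import Pool.Agent.Lib.MP_c5b475_co.Factor
import Pool.Agent.Lib.MP_c5b475_co.Rooted

set_option autoImplicit false

/-!
# Decomposing a regular bipartite graph of girth at least `2ρ + 2` into a tree of radius at most
`ρ + 1`
-/

namespace Pool.Agent.Lib.MP_c5b475_co

open Finset

variable {U : Type*} [Fintype U] [DecidableEq U] {T : SimpleGraph U} (R : RT T)
  {V : Type*} [Fintype V] [DecidableEq V] {G : SimpleGraph V}

namespace RT

omit [Fintype U] [DecidableEq U] [Fintype V] [DecidableEq V] in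
theorem mem_map_edge {f : U ↪ V} {e : Sym2 V} : e ∈ (T.map f).edgeSet ↔
    ∃ u : {u : U // u ≠ R.c}, e = s(f u.1, f (R.par u.1)) := by
  induction e using Sym2.ind with
  | _ x y =>
    rw [SimpleGraph.mem_edgeSet, SimpleGraph.map_adj]
    constructor
    · rintro ⟨u, w, h, rfl, rfl⟩
      rcases (R.adj_iff u w).mp h with ⟨hu, rfl⟩ | ⟨hw, rfl⟩
      · exact ⟨⟨u, hu⟩, rfl⟩
      · exact ⟨⟨w, hw⟩, Sym2.eq_swap⟩
    · rintro ⟨⟨u, hu⟩, h⟩
      rw [Sym2.eq_iff] at h
      rcases h with ⟨rfl, rfl⟩ | ⟨rfl, rfl⟩
      · exact ⟨u, R.par u, R.adj_par hu, rfl, rfl⟩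
      · exact ⟨R.par u, u, (R.adj_par hu).symm, rfl, rfl⟩

/-- **Main construction.** -/
theorem decompose (ρ : ℕ) (hρ : ∀ u, R.dep u ≤ ρ + 1) (m : {u : U // u ≠ R.c} → V → V)
    (h1 : ∀ i v, G.Adj v (m i v)) (h2 : ∀ i v, m i (m i v) = v)
    (h3 : ∀ u v, G.Adj u v → ∃! i, m i u = v) (s : V → ZMod 2)
    (hs : ∀ u v, G.Adj u v → s v = s u + 1) (hg : ((2 * ρ + 2 : ℕ) : ℕ∞) ≤ G.egirth) :
    ∃ f : {v : V // s v = 0} → (U ↪ V), (∀ i, T.map (f i) ≤ G) ∧
      ∀ e ∈ G.edgeSet, ∃! i, e ∈ (T.map (f i)).edgeSet := by
  classical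
  let O := {i : {u : U // u ≠ R.c} // R.dep i.1 = ρ + 1}
  -- list colouring of the multigraph of outer edges
  let β : V × O → V := fun e => R.phi m e.1 (R.par e.2.1.1)
  let κ : V × O → ℕ := fun e => (Fintype.equivFin O e.2).val
  have hminj : ∀ (i j : {u : U // u ≠ R.c}) (z : V), m i z = m j z → i = j := fun i j z h =>
    (h3 z (m j z) (h1 j z)).unique h rfl
  let L : V × O → Finset V := fun e => univ.image (fun w : O => m w.1 (β e))
  have hLcard : ∀ z : V, (univ.image (fun w : O => m w.1 z)).card = Fintype.card O := by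
    intro z
    rw [card_image_of_injective]
    · rfl
    · intro w w' h
      exact Subtype.ext (hminj _ _ _ h)
  obtain ⟨x, hx1, hx2⟩ := galvin (Prod.fst) β κ
    (by
      rintro ⟨v, w⟩ ⟨v', w'⟩ h h'
      simp only at h
      have h'' : (Fintype.equivFin O w) = (Fintype.equivFin O w') := Fin.ext h'
      rw [h, (Fintype.equivFin O).injective h''])
    (by
      rintro ⟨v, w⟩ ⟨v', w'⟩ h h'
      have h'' : (Fintype.equivFin O w) = (Fintype.equivFin O w') := Fin.ext h'
      have h4 := (Fintype.equivFin O).injective h''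
      subst h4
      have h5 : v = v' := R.phi_inj m h2 (R.par w.1.1) h
      rw [h5])
    (D := Fintype.card O) (fun e => (Fintype.equivFin O e.2).isLt) L
    (fun e => (hLcard (β e)).ge)
  -- depths of parents
  have hparO : ∀ w : O, R.dep (R.par w.1.1) = ρ := by
    intro w
    have := R.dep_par w.1.1 w.1.2
    have := w.2
    omega
  have hcase : ∀ u : U, R.dep u ≤ ρ ∨ ∃ w : O, w.1.1 = u := by
    intro u
    by_cases h : R.dep u ≤ ρ
    · exact Or.inl h
    · right
      have h4 := hρ u
      have hu : u ≠ R.c := by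
        rintro rfl
        rw [R.dep_c] at h
        omega
      exact ⟨⟨⟨u, hu⟩, by change R.dep u = ρ + 1; omega⟩, rfl⟩
  have hOdep : ∀ w : O, ¬ R.dep w.1.1 ≤ ρ := by
    intro w h
    have := w.2
    omega
  -- the copies
  let F : V → U → V := fun v u =>
    if h : R.dep u ≤ ρ then R.phi m v u else
      x (v, ⟨⟨u, by
        rintro rfl
        rw [R.dep_c] at h
        omega⟩, by
          change R.dep u = ρ + 1
          have := hρ u
          omega⟩)
  have Fint : ∀ v u, R.dep u ≤ ρ → F v u = R.phi m v u := by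
    intro v u h
    simp only [F, dif_pos h]
  have Fout : ∀ v (w : O), F v w.1.1 = x (v, w) := by
    intro v w
    exact dif_neg (hOdep w)
  have hxm : ∀ v (w : O), ∃ w' : O, x (v, w) = m w'.1 (R.phi m v (R.par w.1.1)) := by
    intro v w
    have := hx1 (v, w)
    simp only [L, mem_image, mem_univ, true_and] at this
    obtain ⟨w', hw'⟩ := this
    exact ⟨w', hw'.symm⟩
  -- edges of the copies
  have hedge : ∀ v (u : {u : U // u ≠ R.c}), ∃ j : {u : U // u ≠ R.c},
      F v u.1 = m j (R.phi m v (R.par u.1)) ∧ F v (R.par u.1) = R.phi m v (R.par u.1) ∧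
      (R.dep u.1 ≤ ρ → j = u) ∧ (¬ R.dep u.1 ≤ ρ → ¬ R.dep j.1 ≤ ρ) := by
    intro v u
    have hp : R.dep (R.par u.1) ≤ ρ := by
      have := R.dep_par u.1 u.2
      have := hρ u.1
      omega
    rcases hcase u.1 with h | ⟨w, hw⟩
    · refine ⟨u, ?_, Fint v _ hp, fun _ => rfl, fun h' => absurd h h'⟩
      rw [Fint v _ h, R.phi_ne m v u.2]
    · have hwu : w.1 = u := Subtype.ext hw
      subst hwu
      obtain ⟨w', hw'⟩ := hxm v w
      refine ⟨w'.1, ?_, Fint v _ hp, fun h => absurd h (hOdep w), fun _ => hOdep w'⟩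
      rw [Fout, hw']
  have Finj : ∀ v, Function.Injective (F v) := by
    have aux : ∀ v (u : U) (w : O), R.dep u ≤ ρ → F v u ≠ F v w.1.1 := by
      intro v u w hu h
      rw [Fint v u hu, Fout] at h
      obtain ⟨w', hw'⟩ := hxm v w
      rw [hw'] at h
      exact R.phi_outer_ne m h1 h2 h3 hg v (by rw [hparO]) hu
        (by have := w'.2; omega) h
    intro v u u' h
    rcases hcase u with hu | ⟨w, rfl⟩ <;> rcases hcase u' with hu' | ⟨w', rfl⟩
    · by_contra hne
      rw [Fint v u hu, Fint v u' hu'] at h
      exact R.phi_inner_ne m h1 h2 h3 hg v hu hu' hne h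
    · exact absurd h (aux v u w' hu)
    · exact absurd h.symm (aux v u' w hu')
    · rw [Fout, Fout] at h
      by_contra hne
      have hne' : (v, w) ≠ (v, w') := by
        intro e
        rw [Prod.mk.injEq] at e
        exact hne (by rw [e.2])
      exact hx2 _ _ hne' (Or.inl rfl) h
  let f : {v : V // s v = 0} → (U ↪ V) := fun v => ⟨F v.1, Finj v.1⟩
  have hf : ∀ v u, f v u = F v.1 u := fun v u => rfl
  have hsm : ∀ i v, s (m i v) = s v + 1 := fun i v => hs v _ (h1 i v)
  have hsphi := R.side_phi m hsm
  have hne1 : ∀ a : ZMod 2, a ≠ a + 1 := by decide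
  refine ⟨f, ?_, ?_⟩
  · intro v
    rw [← SimpleGraph.edgeSet_subset_edgeSet]
    intro e he
    rw [R.mem_map_edge] at he
    obtain ⟨u, rfl⟩ := he
    obtain ⟨j, hj1, hj2, _, _⟩ := hedge v.1 u
    rw [SimpleGraph.mem_edgeSet, hf, hf, hj1, hj2]
    exact (h1 j _).symm
  · -- every edge is covered exactly once
    have claim : ∀ (z : V) (i : {u : U // u ≠ R.c}), s z = (R.dep (R.par i.1) : ZMod 2) →
        ∃! v : {v : V // s v = 0}, s(z, m i z) ∈ (T.map (f v)).edgeSet := by
      intro z i hz
      -- general consequence of membership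
      have mem : ∀ v : {v : V // s v = 0}, s(z, m i z) ∈ (T.map (f v)).edgeSet →
          ∃ u : {u : U // u ≠ R.c}, (R.dep u.1 ≤ ρ ↔ R.dep i.1 ≤ ρ) ∧
            (R.dep u.1 ≤ ρ → u = i) ∧ (s z = (R.dep (R.par u.1) : ZMod 2) →
            R.phi m v.1 (R.par u.1) = z ∧ F v.1 u.1 = m i z) := by
        intro v hv
        rw [R.mem_map_edge] at hv
        obtain ⟨u, hu⟩ := hv
        obtain ⟨j, hj1, hj2, hj3, hj4⟩ := hedge v.1 u
        rw [hf, hf, hj1, hj2] at hu
        have hu' : s(z, m i z) = s(R.phi m v.1 (R.par u.1), m j (R.phi m v.1 (R.par u.1))) :=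
          hu.trans Sym2.eq_swap
        have hij := R.colour_unique m h1 h2 h3 hu'
        subst hij
        refine ⟨u, ⟨fun h => by rw [hj3 h]; exact h, fun h => by
          by_contra h'
          exact hj4 h' h⟩, fun h => (hj3 h).symm, ?_⟩
        intro hz'
        rw [Sym2.eq_iff] at hu'
        rcases hu' with ⟨h4, h5⟩ | ⟨h4, h5⟩
        · exact ⟨h4.symm, by rw [hj1, ← h4]⟩
        · exfalso
          have h6 := hsphi v.1 (R.par u.1)
          rw [v.2, zero_add, ← hz'] at h6
          have h7 : s z = s z + 1 := by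
            conv_lhs => rw [h4, hsm, h6]
          exact hne1 _ h7
      -- preimages
      have pre : ∀ u : U, s z = (R.dep u : ZMod 2) →
          ∃ v : {v : V // s v = 0}, R.phi m v.1 u = z := by
        intro u hu
        have hsurj : Function.Surjective (fun v => R.phi m v u) :=
          Finite.injective_iff_surjective.mp (R.phi_inj m h2 u)
        obtain ⟨v, hv⟩ := hsurj z
        have h4 := hsphi v u
        simp only at hv
        rw [hv, hu] at h4
        refine ⟨⟨v, ?_⟩, hv⟩
        have h5 : s v + (R.dep u : ZMod 2) = 0 + (R.dep u : ZMod 2) := by rw [← h4, zero_add]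
        exact add_right_cancel h5
      by_cases hi : R.dep i.1 ≤ ρ
      · obtain ⟨v, hv⟩ := pre _ hz
        refine ⟨v, ?_, ?_⟩
        · change s(z, m i z) ∈ (T.map (f v)).edgeSet
          rw [R.mem_map_edge]
          refine ⟨i, ?_⟩
          have hp : R.dep (R.par i.1) ≤ ρ := by
            have := R.dep_par i.1 i.2
            omega
          rw [hf, hf, Fint _ _ hi, Fint _ _ hp, R.phi_ne m v.1 i.2, hv]
          exact Sym2.eq_swap
        · intro v' hv'
          obtain ⟨u, hu1, hu2, hu3⟩ := mem v' hv'
          have hui := hu2 (hu1.mpr hi)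
          subst hui
          have h4 := (hu3 hz).1
          exact Subtype.ext (R.phi_inj m h2 _ (h4.trans hv.symm))
      · obtain ⟨w0, hw0⟩ : ∃ w : O, w.1 = i := by
          rcases hcase i.1 with h | ⟨w, hw⟩
          · exact absurd h hi
          · exact ⟨w, Subtype.ext hw⟩
        have hzρ : s z = (ρ : ZMod 2) := by
          rw [hz, ← hw0, hparO]
        have hpre : ∀ w : O, ∃ v : {v : V // s v = 0}, R.phi m v.1 (R.par w.1.1) = z :=
          fun w => pre _ (by rw [hparO]; exact hzρ)
        choose g hg' using hpre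
        -- the colours used at z
        have hginj : Function.Injective (fun w : O => x ((g w).1, w)) := by
          intro w w' h
          by_contra hne
          have hne' : ((g w).1, w) ≠ ((g w').1, w') := by
            intro e
            rw [Prod.mk.injEq] at e
            exact hne e.2
          refine hx2 _ _ hne' (Or.inr ?_) h
          exact (hg' w).trans (hg' w').symm
        have himg : univ.image (fun w : O => x ((g w).1, w)) =
            univ.image (fun w : O => m w.1 z) := by
          apply eq_of_subset_of_card_le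
          · intro y hy
            rw [mem_image] at hy
            obtain ⟨w, _, rfl⟩ := hy
            obtain ⟨w', hw'⟩ := hxm (g w).1 w
            rw [hw', hg']
            exact mem_image_of_mem _ (mem_univ w')
          · rw [hLcard, card_image_of_injective _ hginj]
            rfl
        have hmem : m i z ∈ univ.image (fun w : O => x ((g w).1, w)) := by
          rw [himg, ← hw0]
          exact mem_image_of_mem _ (mem_univ w0)
        rw [mem_image] at hmem
        obtain ⟨w, _, hw⟩ := hmem
        refine ⟨g w, ?_, ?_⟩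
        · change s(z, m i z) ∈ (T.map (f (g w))).edgeSet
          rw [R.mem_map_edge]
          refine ⟨w.1, ?_⟩
          rw [hf, hf, Fout, hw, Fint _ _ (by rw [hparO]), hg']
          exact Sym2.eq_swap
        · intro v' hv'
          obtain ⟨u, hu1, hu2, hu3⟩ := mem v' hv'
          obtain ⟨w', hw'⟩ : ∃ w : O, w.1 = u := by
            rcases hcase u.1 with h | ⟨w, hw⟩
            · exact absurd (hu1.mp h) hi
            · exact ⟨w, Subtype.ext hw⟩
          subst hw'
          obtain ⟨h4, h5⟩ := hu3 (by rw [hparO]; exact hzρ)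
          have h6 : v' = g w' := Subtype.ext (R.phi_inj m h2 _ (h4.trans (hg' w').symm))
          rw [Fout, h6, ← hw] at h5
          have h7 := hginj h5
          rw [h6, h7]
    intro e he
    induction e using Sym2.ind with
    | _ a b =>
      have hab : G.Adj a b := he
      obtain ⟨i, hi, _⟩ := h3 a b hab
      have hsab := hs a b hab
      by_cases ha : s a = (R.dep (R.par i.1) : ZMod 2)
      · have := claim a i ha
        rw [hi] at this
        exact this
      · have hb : s b = (R.dep (R.par i.1) : ZMod 2) := by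
          rw [hsab]
          generalize s a = p at ha
          generalize (R.dep (R.par i.1) : ZMod 2) = q at ha
          revert p q
          decide
        have := claim b i hb
        have hi' : m i b = a := by rw [← hi, h2]
        rw [hi'] at this
        rw [Sym2.eq_swap]
        exact this

end RT

end Pool.Agent.Lib.MP_c5b475_co
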