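import Pool.Agent.Lib.MP_c5b475_co.Galvin
import Pool.Agent.Lib.MP_c5b475_co.Factor
import Pool.Agent.Lib.MP_c5b475_co.Rooted
import Pool.Agent.Lib.MP_c5b475_co.Decompose

set_option autoImplicit false

/-!
# Hanging the leaves by Galvin's theorem: a general layer lemma
-/

namespace Pool.Agent.Lib.MP_c5b475_co

open Finset

variable {U : Type*} [Fintype U] [DecidableEq U] {T : SimpleGraph U} (R : RT T)
  {V : Type*} [Fintype V] [DecidableEq V] {G : SimpleGraph V}

namespace RT

/-- **Layer lemma, sharp form.** The inner part `I` of the tree is walked along the colours of a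
1-factorization, the remaining vertices (leaves) are placed by Galvin's theorem. -/
theorem decompose_layer' (I : Finset U) (hc : R.c ∈ I) (hpar : ∀ u ∈ I, u ≠ R.c → R.par u ∈ I)
    (hout : ∀ u, u ∉ I → R.par u ∈ I) (m : {u : U // u ≠ R.c} → V → V)
    (h1 : ∀ i v, G.Adj v (m i v)) (h2 : ∀ i v, m i (m i v) = v)
    (h3 : ∀ u v, G.Adj u v → ∃! i, m i u = v) (s : V → ZMod 2)
    (hs : ∀ u v, G.Adj u v → s v = s u + 1)
    (hin : ∀ v, s v = 0 → ∀ u ∈ I, ∀ u' ∈ I, R.phi m v u = R.phi m v u' → u = u')
    (hno : ∀ v, s v = 0 → ∀ w : {u : U // u ≠ R.c}, w.1 ∉ I → ∀ u ∈ I,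
      (R.dep u : ZMod 2) = R.dep w.1 → ∀ j : {u : U // u ≠ R.c}, j.1 ∉ I →
      (R.dep j.1 : ZMod 2) = R.dep w.1 → m j (R.phi m v (R.par w.1)) ≠ R.phi m v u) :
    ∃ f : {v : V // s v = 0} → (U ↪ V), (∀ i, T.map (f i) ≤ G) ∧
      ∀ e ∈ G.edgeSet, ∃! i, e ∈ (T.map (f i)).edgeSet := by
  classical
  have hminj : ∀ (i j : {u : U // u ≠ R.c}) (z : V), m i z = m j z → i = j := fun i j z h =>
    (h3 z (m j z) (h1 j z)).unique h rfl
  -- the two classes of leaves
  let O : ZMod 2 → Type _ := fun a => {i : {u : U // u ≠ R.c} // i.1 ∉ I ∧ (R.dep i.1 : ZMod 2) = a}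
  have hLcard : ∀ (a : ZMod 2) (z : V),
      (univ.image (fun w : O a => m w.1 z)).card = Fintype.card (O a) := by
    intro a z
    rw [card_image_of_injective]
    · rfl
    · intro w w' h
      exact Subtype.ext (hminj _ _ _ h)
  have gal : ∀ a : ZMod 2, ∃ x : V × O a → V,
      (∀ e : V × O a, x e ∈ univ.image (fun w : O a => m w.1 (R.phi m e.1 (R.par e.2.1.1)))) ∧
      ∀ e e' : V × O a, e ≠ e' → (e.1 = e'.1 ∨
        R.phi m e.1 (R.par e.2.1.1) = R.phi m e'.1 (R.par e'.2.1.1)) → x e ≠ x e' := by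
    intro a
    exact galvin (E := V × O a) Prod.fst (fun e => R.phi m e.1 (R.par e.2.1.1))
      (fun e => (Fintype.equivFin (O a) e.2).val)
      (by
        rintro ⟨v, w⟩ ⟨v', w'⟩ h h'
        simp only at h
        have h'' : (Fintype.equivFin (O a) w) = (Fintype.equivFin (O a) w') := Fin.ext h'
        rw [h, (Fintype.equivFin (O a)).injective h''])
      (by
        rintro ⟨v, w⟩ ⟨v', w'⟩ h h'
        have h'' : (Fintype.equivFin (O a) w) = (Fintype.equivFin (O a) w') := Fin.ext h'
        have h4 := (Fintype.equivFin (O a)).injective h''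
        subst h4
        have h5 : v = v' := R.phi_inj m h2 (R.par w.1.1) h
        rw [h5])
      (D := Fintype.card (O a)) (fun e => (Fintype.equivFin (O a) e.2).isLt)
      (fun e => univ.image (fun w : O a => m w.1 (R.phi m e.1 (R.par e.2.1.1))))
      (fun e => (hLcard a _).ge)
  choose x hx1 hx2 using gal
  have hne : ∀ u : U, u ∉ I → u ≠ R.c := fun u hu h => hu (h ▸ hc)
  -- the copies
  let F : V → U → V := fun v u =>
    if h : u ∈ I then R.phi m v u else
      x (R.dep u : ZMod 2) (v, ⟨⟨u, hne u h⟩, h, rfl⟩)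
  have Fint : ∀ v u, u ∈ I → F v u = R.phi m v u := by
    intro v u h
    simp only [F, dif_pos h]
  have Fout : ∀ v (a : ZMod 2) (w : O a), F v w.1.1 = x a (v, w) := by
    intro v a w
    obtain ⟨w1, w2, rfl⟩ := w
    exact dif_neg w2
  have hxm : ∀ v (a : ZMod 2) (w : O a), ∃ w' : O a,
      x a (v, w) = m w'.1 (R.phi m v (R.par w.1.1)) := by
    intro v a w
    have := hx1 a (v, w)
    simp only [mem_image, mem_univ, true_and] at this
    obtain ⟨w', hw'⟩ := this
    exact ⟨w', hw'.symm⟩
  -- edges of the copies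
  have hparI : ∀ u : {u : U // u ≠ R.c}, R.par u.1 ∈ I := by
    intro u
    by_cases h : u.1 ∈ I
    · exact hpar _ h u.2
    · exact hout _ h
  have hedge : ∀ v (u : {u : U // u ≠ R.c}), ∃ j : {u : U // u ≠ R.c},
      F v u.1 = m j (R.phi m v (R.par u.1)) ∧ F v (R.par u.1) = R.phi m v (R.par u.1) ∧
      (u.1 ∈ I → j = u) ∧ (u.1 ∉ I → j.1 ∉ I ∧ (R.dep j.1 : ZMod 2) = R.dep u.1) := by
    intro v u
    by_cases h : u.1 ∈ I
    · refine ⟨u, ?_, Fint v _ (hparI u), fun _ => rfl, fun h' => absurd h h'⟩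
      rw [Fint v _ h, R.phi_ne m v u.2]
    · obtain ⟨w', hw'⟩ := hxm v (R.dep u.1 : ZMod 2) ⟨u, h, rfl⟩
      refine ⟨w'.1, ?_, Fint v _ (hparI u), fun h' => absurd h' h, fun _ => ⟨w'.2.1, w'.2.2⟩⟩
      have := Fout v (R.dep u.1 : ZMod 2) ⟨u, h, rfl⟩
      rw [this, hw']
  have hsm : ∀ i v, s (m i v) = s v + 1 := fun i v => hs v _ (h1 i v)
  have hsphi := R.side_phi m hsm
  have hne1 : ∀ a : ZMod 2, a ≠ a + 1 := by decide
  have hdep : ∀ u : {u : U // u ≠ R.c}, (R.dep u.1 : ZMod 2) = R.dep (R.par u.1) + 1 := by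
    intro u
    rw [← R.dep_par u.1 u.2]
    push_cast
    ring
  have hsF : ∀ v u, s (F v u) = s v + (R.dep u : ZMod 2) := by
    intro v u
    by_cases h : u ∈ I
    · rw [Fint v u h, hsphi]
    · obtain ⟨j, hj, _⟩ := hedge v ⟨u, hne u h⟩
      simp only at hj
      rw [hj, hsm, hsphi, hdep ⟨u, hne u h⟩]
      ring
  have Finj : ∀ v, s v = 0 → Function.Injective (F v) := by
    intro v hv
    have aux : ∀ (u : U) (w : U), u ∈ I → w ∉ I → F v u ≠ F v w := by
      intro u w hu hw h
      obtain ⟨j, hj, _, _, hj4⟩ := hedge v ⟨w, hne w hw⟩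
      simp only at hj
      rw [Fint v u hu, hj] at h
      have hdu : (R.dep u : ZMod 2) = R.dep w := by
        have h4 := hsphi v u
        rw [h, hsm, hsphi, add_assoc] at h4
        have h5 := hdep ⟨w, hne w hw⟩
        simp only at h5
        rw [h5]
        exact (add_left_cancel h4).symm
      exact hno v hv ⟨w, hne w hw⟩ hw u hu hdu j (hj4 hw).1 (hj4 hw).2 h.symm
    intro u u' h
    by_cases hu : u ∈ I <;> by_cases hu' : u' ∈ I
    · rw [Fint v u hu, Fint v u' hu'] at h
      exact hin v hv u hu u' hu' h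
    · exact absurd h (aux u u' hu hu')
    · exact absurd h.symm (aux u' u hu' hu)
    · have hd : (R.dep u' : ZMod 2) = R.dep u := by
        have h4 := hsF v u
        have h5 := hsF v u'
        rw [h] at h4
        rw [h4] at h5
        exact (add_left_cancel h5).symm
      have e1 := Fout v (R.dep u : ZMod 2) ⟨⟨u, hne u hu⟩, hu, rfl⟩
      have e2 := Fout v (R.dep u : ZMod 2) ⟨⟨u', hne u' hu'⟩, hu', hd⟩
      simp only at e1 e2
      rw [e1, e2] at h
      by_contra hne'
      refine hx2 (R.dep u : ZMod 2) (v, ⟨⟨u, hne u hu⟩, hu, rfl⟩)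
        (v, ⟨⟨u', hne u' hu'⟩, hu', hd⟩) ?_ (Or.inl rfl) h
      intro e
      rw [Prod.mk.injEq, Subtype.mk.injEq, Subtype.mk.injEq] at e
      exact hne' e.2
  let f : {v : V // s v = 0} → (U ↪ V) := fun v => ⟨F v.1, Finj v.1 v.2⟩
  have hf : ∀ v u, f v u = F v.1 u := fun v u => rfl
  refine ⟨f, ?_, ?_⟩
  · intro v
    rw [← SimpleGraph.edgeSet_subset_edgeSet]
    intro e he
    rw [R.mem_map_edge] at he
    obtain ⟨u, rfl⟩ := he
    obtain ⟨j, hj1, hj2, _, _⟩ := hedge v.1 u
    rw [SimpleGraph.mem_edgeSet, hf, hf, hj1, hj2]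
    exact (h1 j _).symm
  · -- every edge is covered exactly once
    have claim : ∀ (z : V) (i : {u : U // u ≠ R.c}), s z = (R.dep (R.par i.1) : ZMod 2) →
        ∃! v : {v : V // s v = 0}, s(z, m i z) ∈ (T.map (f v)).edgeSet := by
      intro z i hz
      -- general consequence of membership
      have mem : ∀ v : {v : V // s v = 0}, s(z, m i z) ∈ (T.map (f v)).edgeSet →
          ∃ u : {u : U // u ≠ R.c}, (u.1 ∈ I ↔ i.1 ∈ I) ∧ (u.1 ∈ I → u = i) ∧
            R.phi m v.1 (R.par u.1) = z ∧ F v.1 u.1 = m i z ∧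
            (R.dep u.1 : ZMod 2) = R.dep i.1 := by
        intro v hv
        rw [R.mem_map_edge] at hv
        obtain ⟨u, hu⟩ := hv
        obtain ⟨j, hj1, hj2, hj3, hj4⟩ := hedge v.1 u
        rw [hf, hf, hj1, hj2] at hu
        have hu' : s(z, m i z) = s(R.phi m v.1 (R.par u.1), m j (R.phi m v.1 (R.par u.1))) :=
          hu.trans Sym2.eq_swap
        have hij := R.colour_unique m h1 h2 h3 hu'
        subst hij
        have hdu : (R.dep u.1 : ZMod 2) = R.dep i.1 := by
          by_cases h : u.1 ∈ I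
          · rw [hj3 h]
          · exact (hj4 h).2.symm
        have hz' : s z = (R.dep (R.par u.1) : ZMod 2) := by
          rw [hdep, hdep] at hdu
          rw [hz]
          exact (add_right_cancel hdu).symm
        refine ⟨u, ⟨fun h => by rw [hj3 h]; exact h, fun h => by
          by_contra h'
          exact (hj4 h').1 h⟩, fun h => (hj3 h).symm, ?_⟩
        rw [Sym2.eq_iff] at hu'
        rcases hu' with ⟨h4, h5⟩ | ⟨h4, h5⟩
        · exact ⟨h4.symm, by rw [hj1, ← h4], hdu⟩
        · exfalso
          have h6 := hsphi v.1 (R.par u.1)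
          rw [v.2, zero_add, ← hz'] at h6
          have h7 : s z = s z + 1 := by
            conv_lhs => rw [h4, hsm, h6]
          exact hne1 _ h7
      -- preimages
      have pre : ∀ u : U, s z = (R.dep u : ZMod 2) →
          ∃ v : {v : V // s v = 0}, R.phi m v.1 u = z := by
        intro u hu
        have hsurj : Function.Surjective (fun v => R.phi m v u) :=
          Finite.injective_iff_surjective.mp (R.phi_inj m h2 u)
        obtain ⟨v, hv⟩ := hsurj z
        have h4 := hsphi v u
        simp only at hv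
        rw [hv, hu] at h4
        refine ⟨⟨v, ?_⟩, hv⟩
        have h5 : s v + (R.dep u : ZMod 2) = 0 + (R.dep u : ZMod 2) := by rw [← h4, zero_add]
        exact add_right_cancel h5
      by_cases hi : i.1 ∈ I
      · obtain ⟨v, hv⟩ := pre _ hz
        refine ⟨v, ?_, ?_⟩
        · change s(z, m i z) ∈ (T.map (f v)).edgeSet
          rw [R.mem_map_edge]
          refine ⟨i, ?_⟩
          rw [hf, hf, Fint _ _ hi, Fint _ _ (hparI i), R.phi_ne m v.1 i.2, hv]
          exact Sym2.eq_swap
        · intro v' hv'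
          obtain ⟨u, hu1, hu2, hu3, _, _⟩ := mem v' hv'
          have hui := hu2 (hu1.mpr hi)
          subst hui
          exact Subtype.ext (R.phi_inj m h2 _ (hu3.trans hv.symm))
      · -- leaves of the class of `i`
        obtain ⟨a, ha⟩ : ∃ a : ZMod 2, a = (R.dep i.1 : ZMod 2) := ⟨_, rfl⟩
        have hpre : ∀ w : O a, ∃ v : {v : V // s v = 0}, R.phi m v.1 (R.par w.1.1) = z := by
          intro w
          apply pre
          have h5 : (R.dep (R.par i.1) : ZMod 2) + 1 = (R.dep (R.par w.1.1) : ZMod 2) + 1 := by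
            rw [← hdep, ← hdep]
            exact (w.2.2.trans ha).symm
          rw [hz]
          exact add_right_cancel h5
        choose g hg' using hpre
        -- the colours used at z
        have hginj : Function.Injective (fun w : O a => x a ((g w).1, w)) := by
          intro w w' h
          by_contra hne
          have hne' : ((g w).1, w) ≠ ((g w').1, w') := by
            intro e
            rw [Prod.mk.injEq] at e
            exact hne e.2
          refine hx2 _ _ _ hne' (Or.inr ?_) h
          exact (hg' w).trans (hg' w').symm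
        have himg : univ.image (fun w : O a => x a ((g w).1, w)) =
            univ.image (fun w : O a => m w.1 z) := by
          apply eq_of_subset_of_card_le
          · intro y hy
            rw [mem_image] at hy
            obtain ⟨w, _, rfl⟩ := hy
            obtain ⟨w', hw'⟩ := hxm (g w).1 a w
            rw [hw', hg']
            exact mem_image_of_mem _ (mem_univ w')
          · rw [hLcard, card_image_of_injective _ hginj]
            rfl
        have hmem : m i z ∈ univ.image (fun w : O a => x a ((g w).1, w)) := by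
          rw [himg]
          exact mem_image_of_mem (fun w : O a => m w.1 z) (mem_univ (⟨i, hi, ha.symm⟩ : O a))
        rw [mem_image] at hmem
        obtain ⟨w, _, hw⟩ := hmem
        refine ⟨g w, ?_, ?_⟩
        · change s(z, m i z) ∈ (T.map (f (g w))).edgeSet
          rw [R.mem_map_edge]
          refine ⟨w.1, ?_⟩
          rw [hf, hf, Fout, hw, Fint _ _ (hparI w.1), hg']
          exact Sym2.eq_swap
        · intro v' hv'
          obtain ⟨u, hu1, hu2, hu3, hu4, hu5⟩ := mem v' hv'
          have huI : u.1 ∉ I := fun h => hi (hu1.mp h)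
          obtain ⟨w', hw'⟩ : ∃ w' : O a, w'.1 = u := ⟨⟨u, huI, hu5.trans ha.symm⟩, rfl⟩
          subst hw'
          have h6 : v' = g w' := Subtype.ext (R.phi_inj m h2 _ (hu3.trans (hg' w').symm))
          rw [Fout, h6, ← hw] at hu4
          have h7 := hginj hu4
          rw [h6, h7]
    intro e he
    induction e using Sym2.ind with
    | _ a b =>
      have hab : G.Adj a b := he
      obtain ⟨i, hi, _⟩ := h3 a b hab
      have hsab := hs a b hab
      by_cases ha : s a = (R.dep (R.par i.1) : ZMod 2)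
      · have := claim a i ha
        rw [hi] at this
        exact this
      · have hb : s b = (R.dep (R.par i.1) : ZMod 2) := by
          rw [hsab]
          generalize s a = p at ha
          generalize (R.dep (R.par i.1) : ZMod 2) = q at ha
          revert p q
          decide
        have := claim b i hb
        have hi' : m i b = a := by rw [← hi, h2]
        rw [hi'] at this
        rw [Sym2.eq_swap]
        exact this

/-- **Layer lemma.** -/
theorem decompose_layer (I : Finset U) (hc : R.c ∈ I) (hpar : ∀ u ∈ I, u ≠ R.c → R.par u ∈ I)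
    (hout : ∀ u, u ∉ I → R.par u ∈ I) (m : {u : U // u ≠ R.c} → V → V)
    (h1 : ∀ i v, G.Adj v (m i v)) (h2 : ∀ i v, m i (m i v) = v)
    (h3 : ∀ u v, G.Adj u v → ∃! i, m i u = v) (s : V → ZMod 2)
    (hs : ∀ u v, G.Adj u v → s v = s u + 1)
    (hin : ∀ v, s v = 0 → ∀ u ∈ I, ∀ u' ∈ I, R.phi m v u = R.phi m v u' → u = u')
    (hno : ∀ v, s v = 0 → ∀ z ∈ I, ∀ u ∈ I, ∀ w : {u : U // u ≠ R.c}, w.1 ∉ I →
      m w (R.phi m v z) ≠ R.phi m v u) :
    ∃ f : {v : V // s v = 0} → (U ↪ V), (∀ i, T.map (f i) ≤ G) ∧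
      ∀ e ∈ G.edgeSet, ∃! i, e ∈ (T.map (f i)).edgeSet :=
  R.decompose_layer' I hc hpar hout m h1 h2 h3 s hs hin
    (fun v hv w hw u hu _ j hj _ => hno v hv _ (hout w.1 hw) u hu j hj)

end RT

end Pool.Agent.Lib.MP_c5b475_co
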