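import Pool.Agent.Lib.MP_c5b475_co.Decompose

set_option autoImplicit false

/-!
# Trees of diameter at most the girth
-/

namespace Pool.Agent.Lib.MP_c5b475_co

open Finset

/-- If `w` is on a walk from `v` to `x` of length `dist v x` then the distances add up. -/
theorem dist_add_of_mem {U : Type*} {T : SimpleGraph U} [DecidableEq U] {v x w : U}
    (p : T.Walk v x) (hp : p.length = T.dist v x) (hw : w ∈ p.support) :
    T.dist v w + T.dist w x ≤ T.dist v x := by
  have h1 : T.dist v w ≤ (p.takeUntil w hw).length := SimpleGraph.dist_le _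
  have h2 : T.dist w x ≤ (p.dropUntil w hw).length := SimpleGraph.dist_le _
  have h3 := congrArg SimpleGraph.Walk.length (p.take_spec hw)
  rw [SimpleGraph.Walk.length_append] at h3
  omega

/-- A finite tree has a vertex whose distance to every vertex is at most half of the diameter,
rounded up. -/
theorem exists_center {U : Type*} [Fintype U] [DecidableEq U] [Nonempty U] {T : SimpleGraph U}
    (hT : T.IsTree) (D : ℕ) (hD : ∀ u v, T.dist u v ≤ D) :
    ∃ c, ∀ v, 2 * T.dist c v ≤ D + 1 := by
  have hconn : T.Connected := hT.connected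
  obtain ⟨⟨x, y⟩, _, hmax⟩ := exists_max_image (univ : Finset (U × U))
    (fun p => T.dist p.1 p.2) univ_nonempty
  have hmax' : ∀ u v, T.dist u v ≤ T.dist x y := fun u v => hmax (u, v) (mem_univ _)
  obtain ⟨p, hp, hl⟩ := hconn.exists_path_of_dist x y
  set k := T.dist x y / 2 with hk
  set c := p.getVert k with hc
  have h1 : T.dist x c ≤ k := by
    have := SimpleGraph.dist_le (p.take k)
    rw [SimpleGraph.Walk.take_length] at this
    exact this.trans (min_le_left _ _)
  have h2 : T.dist c y ≤ T.dist x y - k := by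
    have := SimpleGraph.dist_le (p.drop k)
    rw [SimpleGraph.Walk.drop_length, hl] at this
    exact this
  have h3 : T.dist x y ≤ T.dist x c + T.dist c y := hconn.dist_triangle
  have hcp : c ∈ p.support := SimpleGraph.Walk.getVert_mem_support _ _
  refine ⟨c, fun v => ?_⟩
  obtain ⟨q1, hq1, hl1⟩ := hconn.exists_path_of_dist v x
  obtain ⟨q2, hq2, hl2⟩ := hconn.exists_path_of_dist v y
  have hxy := hD x y
  have hcv : T.dist v c = T.dist c v := SimpleGraph.dist_comm
  have hcx : T.dist c x = T.dist x c := SimpleGraph.dist_comm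
  by_cases hc1 : c ∈ q1.support
  · have h4 := dist_add_of_mem q1 hl1 hc1
    have h5 := hmax' v x
    omega
  · by_cases hc2 : c ∈ q2.support
    · have h4 := dist_add_of_mem q2 hl2 hc2
      have h5 := hmax' v y
      omega
    · exfalso
      have hb : (q1.reverse.append q2).bypass.IsPath := SimpleGraph.Walk.bypass_isPath _
      have heq := (hT.existsUnique_path x y).unique hp hb
      rw [heq] at hcp
      have := SimpleGraph.Walk.support_bypass_subset_support _ hcp
      rw [SimpleGraph.Walk.mem_support_append_iff, SimpleGraph.Walk.support_reverse,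
        List.mem_reverse] at this
      rcases this with h | h
      · exact hc1 h
      · exact hc2 h

/-- Parity along a walk in a bipartite graph. -/
theorem side_walk {V : Type*} {G : SimpleGraph V} {s : V → ZMod 2}
    (hs : ∀ u v, G.Adj u v → s v = s u + 1) {a b : V} (p : G.Walk a b) :
    s b = s a + (p.length : ZMod 2) := by
  induction p with
  | nil => simp
  | cons h q ih =>
    rw [ih, hs _ _ h, SimpleGraph.Walk.length_cons]
    push_cast
    ring

/-- The girth of a bipartite graph can be rounded up to an even number. -/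
theorem egirth_round {V : Type*} {G : SimpleGraph V} {s : V → ZMod 2}
    (hs : ∀ u v, G.Adj u v → s v = s u + 1) {N : ℕ} (hN : (N : ℕ∞) ≤ G.egirth) :
    ((2 * ((N + 1) / 2) : ℕ) : ℕ∞) ≤ G.egirth := by
  rw [SimpleGraph.le_egirth] at hN ⊢
  intro a w hw
  have h1 : N ≤ w.length := by exact_mod_cast hN a w hw
  have h2 := side_walk hs w
  have h3 : (w.length : ZMod 2) = 0 := by
    have h4 : s a + (w.length : ZMod 2) = s a + 0 := by rw [← h2, add_zero]
    exact add_left_cancel h4
  rw [ZMod.natCast_eq_zero_iff] at h3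
  have h5 : 2 * ((N + 1) / 2) ≤ w.length := by omega
  exact_mod_cast h5

theorem main (n : ℕ) (T : SimpleGraph (Fin (n + 1))) (hT : T.IsTree)
    (V : Type) [Fintype V] [DecidableEq V] (G : SimpleGraph V) [DecidableRel G.Adj]
    (hG : G.IsRegularOfDegree n) (hb : G.Colorable 2)
    (hd : (∀ u v, T.dist u v ≤ 4) ∨ (∀ u v, (T.dist u v : ℕ∞) ≤ G.egirth)) :
    ∃ (ι : Type) (f : ι → (Fin (n + 1) ↪ V)),
      (∀ i, T.map (f i) ≤ G) ∧ ∀ e ∈ G.edgeSet, ∃! i, e ∈ (T.map (f i)).edgeSet := by
  obtain ⟨C⟩ := hb
  -- sides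
  let s : V → ZMod 2 := fun v => ((C v).val : ZMod 2)
  have hs : ∀ u v, G.Adj u v → s v = s u + 1 := by
    intro u v huv
    have h := C.valid huv
    have h' : ∀ a b : Fin 2, a ≠ b → ((b.val : ℕ) : ZMod 2) = ((a.val : ℕ) : ZMod 2) + 1 := by
      decide
    exact h' _ _ h
  have hside : ∀ u v, G.Adj u v → decide (C u = 0) ≠ decide (C v = 0) := by
    intro u v huv
    have h := C.valid huv
    have h' : ∀ a b : Fin 2, a ≠ b → decide (a = 0) ≠ decide (b = 0) := by decide
    exact h' _ _ h
  -- the diameter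
  obtain ⟨⟨x, y⟩, _, hmax⟩ := exists_max_image (univ : Finset (Fin (n + 1) × Fin (n + 1)))
    (fun p => T.dist p.1 p.2) univ_nonempty
  set D := T.dist x y with hDdef
  have hD : ∀ u v, T.dist u v ≤ D := fun u v => hmax (u, v) (mem_univ _)
  have h4 : ((4 : ℕ) : ℕ∞) ≤ G.egirth := by
    have h3 : ((3 : ℕ) : ℕ∞) ≤ G.egirth := by
      have := SimpleGraph.three_le_egirth (G := G)
      exact_mod_cast this
    have := egirth_round hs h3
    simpa using this
  have hDg : (D : ℕ∞) ≤ G.egirth := by
    rcases hd with h | h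
    · exact le_trans (by exact_mod_cast h x y) h4
    · exact h x y
  obtain ⟨c, hc⟩ := exists_center hT D hD
  obtain ⟨R, hRc, hRd⟩ := exists_RT hT c
  have hρ : ∀ u, R.dep u ≤ ((D + 1) / 2 - 1) + 1 := by
    intro u
    rw [hRd]
    have := hc u
    omega
  have hg : ((2 * ((D + 1) / 2 - 1) + 2 : ℕ) : ℕ∞) ≤ G.egirth := by
    by_cases hD0 : (D + 1) / 2 = 0
    · rw [hD0]
      exact le_trans (by norm_num) h4
    · have h5 := egirth_round hs hDg
      have h6 : 2 * ((D + 1) / 2 - 1) + 2 = 2 * ((D + 1) / 2) := by omega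
      rw [h6]
      exact h5
  obtain ⟨m, h1, h2, h3⟩ := exists_factorization' (fun v => decide (C v = 0))
    (W := {u : Fin (n + 1) // u ≠ R.c}) G (by
      intro v
      rw [hG v, Fintype.card_subtype_compl, Fintype.card_subtype_eq]
      simp) hside
  obtain ⟨f, hf1, hf2⟩ := R.decompose _ hρ m h1 h2 h3 s hs hg
  exact ⟨_, f, hf1, hf2⟩

end Pool.Agent.Lib.MP_c5b475_co
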