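import Pool.Agent.Lib.MP_c5b475_co.Layer

set_option autoImplicit false

/-!
# Trees with an α-labelled inner part

The inner part carries an `α`-labelling; the host contains the matchings
`x ↦ b (φ^i x)`, `i < k`, where `k` is the number of inner edges.
-/

namespace Pool.Agent.Lib.MP_c5b475_co

open Finset

section host

variable {V : Type*} [Fintype V] [DecidableEq V] (s : V → ZMod 2) (b : V → V)
  (φ : Equiv.Perm V)

/-- The `i`-th matching of the closed part of the host. -/
def Mt (i : ℕ) (v : V) : V := if s v = 0 then b ((φ ^ i) v) else (φ ^ i).symm (b v)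

variable {s b φ}

omit [Fintype V] [DecidableEq V] in
theorem s_pow (hφ : ∀ v, s (φ v) = s v) (i : ℕ) (v : V) : s ((φ ^ i) v) = s v := by
  induction i generalizing v with
  | zero => rfl
  | succ i ih => rw [pow_succ, Equiv.Perm.mul_apply, ih, hφ]

omit [Fintype V] [DecidableEq V] in
theorem s_pow_inv (hφ : ∀ v, s (φ v) = s v) (i : ℕ) (v : V) : s ((φ ^ i).symm v) = s v := by
  have h := s_pow hφ i ((φ ^ i).symm v)
  rw [← h]
  congr 1
  exact Equiv.apply_symm_apply _ _

theorem zmod2_ne {a : ZMod 2} (h : a ≠ 0) : a = 1 := by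
  revert a
  decide

omit [Fintype V] [DecidableEq V] in
theorem s_Mt (hb : ∀ v, s (b v) = s v + 1) (hφ : ∀ v, s (φ v) = s v) (i : ℕ) (v : V) :
    s (Mt s b φ i v) = s v + 1 := by
  unfold Mt
  split_ifs with h
  · rw [hb, s_pow hφ]
  · rw [s_pow_inv hφ, hb]

omit [Fintype V] [DecidableEq V] in
theorem Mt_Mt (hbb : ∀ v, b (b v) = v) (hb : ∀ v, s (b v) = s v + 1)
    (hφ : ∀ v, s (φ v) = s v) (i : ℕ) (v : V) : Mt s b φ i (Mt s b φ i v) = v := by
  by_cases h : s v = 0
  · have h1 : Mt s b φ i v = b ((φ ^ i) v) := if_pos h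
    have h2 : s (b ((φ ^ i) v)) ≠ 0 := by
      rw [hb, s_pow hφ, h]
      decide
    rw [h1]
    unfold Mt
    rw [if_neg h2, hbb, Equiv.symm_apply_apply]
  · have h1 : Mt s b φ i v = (φ ^ i).symm (b v) := if_neg h
    have h2 : s ((φ ^ i).symm (b v)) = 0 := by
      rw [s_pow_inv hφ, hb, zmod2_ne h]
      decide
    rw [h1]
    unfold Mt
    rw [if_pos h2, Equiv.apply_symm_apply, hbb]

omit [Fintype V] [DecidableEq V] in
theorem Mt_adj {G : SimpleGraph V} {k : ℕ} (hbb : ∀ v, b (b v) = v)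
    (hb : ∀ v, s (b v) = s v + 1) (hφ : ∀ v, s (φ v) = s v)
    (hadj : ∀ v, s v = 0 → ∀ i < k, G.Adj v (b ((φ ^ i) v))) {i : ℕ} (hi : i < k) (v : V) :
    G.Adj v (Mt s b φ i v) := by
  by_cases h : s v = 0
  · have h1 : Mt s b φ i v = b ((φ ^ i) v) := if_pos h
    rw [h1]
    exact hadj v h i hi
  · have h1 : Mt s b φ i v = (φ ^ i).symm (b v) := if_neg h
    have h2 : s ((φ ^ i).symm (b v)) = 0 := by
      rw [s_pow_inv hφ, hb, zmod2_ne h]
      decide
    have h3 := hadj _ h2 i hi
    rw [Equiv.apply_symm_apply, hbb] at h3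
    rw [h1]
    exact h3.symm

omit [Fintype V] [DecidableEq V] in
theorem pow_inj {k : ℕ} (hinj : ∀ v, s v = 0 → ∀ i < k, ∀ j < k, (φ ^ i) v = (φ ^ j) v → i = j)
    {v : V} (hv : s v = 0) {i j : ℕ} (hi : i < k) (hj : j < k)
    (h : (φ ^ i).symm v = (φ ^ j).symm v) : i = j := by
  wlog hij : i ≤ j generalizing i j
  · exact (this hj hi h.symm (by omega)).symm
  obtain ⟨d, rfl⟩ := Nat.exists_eq_add_of_le hij
  have h1 := congrArg (φ ^ (i + d)) h
  rw [Equiv.apply_symm_apply, add_comm i d, pow_add, Equiv.Perm.mul_apply,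
    Equiv.apply_symm_apply] at h1
  have h2 := hinj v hv d (by omega) 0 (by omega) (by simpa using h1)
  omega

omit [Fintype V] [DecidableEq V] in
theorem Mt_inj {k : ℕ} (hbb : ∀ v, b (b v) = v) (hb : ∀ v, s (b v) = s v + 1)
    (hinj : ∀ v, s v = 0 → ∀ i < k, ∀ j < k, (φ ^ i) v = (φ ^ j) v → i = j)
    {i j : ℕ} (hi : i < k) (hj : j < k) {v : V} (h : Mt s b φ i v = Mt s b φ j v) : i = j := by
  have hbi : Function.Injective b := fun x y hxy => by rw [← hbb x, hxy, hbb]
  unfold Mt at h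
  by_cases hv : s v = 0
  · rw [if_pos hv, if_pos hv] at h
    exact hinj v hv i hi j hj (hbi h)
  · rw [if_neg hv, if_neg hv] at h
    refine pow_inj hinj (v := b v) ?_ hi hj h
    rw [hb, zmod2_ne hv]
    decide

end host

variable {U : Type*} [Fintype U] [DecidableEq U] {T : SimpleGraph U} (R : RT T)
  {V : Type*} [Fintype V] [DecidableEq V] {G : SimpleGraph V}

namespace RT

omit [Fintype U] in
/-- The inner copies. -/
theorem phi_alpha (I : Finset U) (hpar : ∀ u ∈ I, u ≠ R.c → R.par u ∈ I) (lab : U → ℕ)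
    (m : {u : U // u ≠ R.c} → V → V) {s : V → ZMod 2} {b : V → V} {φ : Equiv.Perm V}
    (hm : ∀ i : {u : U // u ≠ R.c}, i.1 ∈ I → m i = Mt s b φ (lab i.1 + lab (R.par i.1)))
    (hbb : ∀ v, b (b v) = v) (hb : ∀ v, s (b v) = s v + 1) (hφ : ∀ v, s (φ v) = s v)
    {v : V} (hv : s v = 0) : ∀ u, u ∈ I →
      ((R.dep u : ZMod 2) = 0 → R.phi m v u = (φ ^ lab u).symm ((φ ^ lab R.c) v)) ∧
      ((R.dep u : ZMod 2) ≠ 0 → R.phi m v u = b ((φ ^ lab u) ((φ ^ lab R.c) v))) := by
  refine R.ind (P := fun u => u ∈ I →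
      ((R.dep u : ZMod 2) = 0 → R.phi m v u = (φ ^ lab u).symm ((φ ^ lab R.c) v)) ∧
      ((R.dep u : ZMod 2) ≠ 0 → R.phi m v u = b ((φ ^ lab u) ((φ ^ lab R.c) v)))) ?_ ?_
  · intro _
    constructor
    · intro _
      rw [phi_c, Equiv.symm_apply_apply]
    · intro h
      rw [R.dep_c] at h
      exact absurd rfl h
  · intro u hu ih huI
    obtain ⟨ih1, ih2⟩ := ih (hpar u huI hu)
    have hd : (R.dep u : ZMod 2) = R.dep (R.par u) + 1 := by
      rw [← R.dep_par u hu]
      push_cast
      ring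
    rw [R.phi_ne m v hu, hm ⟨u, hu⟩ huI]
    constructor
    · intro h
      have h1 : (R.dep (R.par u) : ZMod 2) ≠ 0 := by
        intro h2
        rw [hd, h2] at h
        exact absurd h (by decide)
      rw [ih2 h1]
      have h3 : s (b ((φ ^ lab (R.par u)) ((φ ^ lab R.c) v))) ≠ 0 := by
        rw [hb, s_pow hφ, s_pow hφ, hv]
        decide
      unfold Mt
      rw [if_neg h3, hbb, Equiv.symm_apply_eq, add_comm, pow_add, Equiv.Perm.mul_apply,
        Equiv.apply_symm_apply]
    · intro h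
      have h1 : (R.dep (R.par u) : ZMod 2) = 0 := by
        by_contra h2
        rw [hd, zmod2_ne h2] at h
        exact h (by decide)
      rw [ih1 h1]
      have h3 : s ((φ ^ lab (R.par u)).symm ((φ ^ lab R.c) v)) = 0 := by
        rw [s_pow_inv hφ, s_pow hφ, hv]
      unfold Mt
      rw [if_pos h3, pow_add, Equiv.Perm.mul_apply, Equiv.apply_symm_apply]

/-- **Decomposition of a host with a closed part.** -/
theorem decompose_alpha (I : Finset U) (hc : R.c ∈ I) (hpar : ∀ u ∈ I, u ≠ R.c → R.par u ∈ I)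
    (hout : ∀ u, u ∉ I → R.par u ∈ I) (lab : U → ℕ) (k : ℕ) (hk : k + 1 = I.card)
    (l1 : ∀ u ∈ I, ∀ v ∈ I, (R.dep u : ZMod 2) = 0 → (R.dep v : ZMod 2) ≠ 0 →
      lab u + lab v < k)
    (l2 : ∀ u ∈ I, ∀ v ∈ I, (R.dep u : ZMod 2) = R.dep v → lab u = lab v → u = v)
    (l3 : ∀ u ∈ I, ∀ v ∈ I, u ≠ R.c → v ≠ R.c →
      lab u + lab (R.par u) = lab v + lab (R.par v) → u = v)
    [DecidableRel G.Adj] (hd : ∀ v, G.degree v + 1 = Fintype.card U) (s : V → ZMod 2)
    (hs : ∀ u v, G.Adj u v → s v = s u + 1) (b : V → V) (φ : Equiv.Perm V)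
    (hbb : ∀ v, b (b v) = v) (hb : ∀ v, s (b v) = s v + 1) (hφ : ∀ v, s (φ v) = s v)
    (hadj : ∀ v, s v = 0 → ∀ i < k, G.Adj v (b ((φ ^ i) v)))
    (hinj : ∀ v, s v = 0 → ∀ i < k, ∀ j < k, (φ ^ i) v = (φ ^ j) v → i = j) :
    ∃ f : {v : V // s v = 0} → (U ↪ V), (∀ i, T.map (f i) ≤ G) ∧
      ∀ e ∈ G.edgeSet, ∃! i, e ∈ (T.map (f i)).edgeSet := by
  classical
  have hMadj : ∀ i < k, ∀ v, G.Adj v (Mt s b φ i v) := fun i hi v =>
    Mt_adj hbb hb hφ hadj hi v
  have hMM : ∀ i v, Mt s b φ i (Mt s b φ i v) = v := Mt_Mt hbb hb hφ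
  have hMinj : ∀ i < k, ∀ j < k, ∀ v, Mt s b φ i v = Mt s b φ j v → i = j :=
    fun i hi j hj v h => Mt_inj hbb hb hinj hi hj h
  have hdpar : ∀ u, u ≠ R.c → (R.dep u : ZMod 2) = R.dep (R.par u) + 1 := by
    intro u hu
    rw [← R.dep_par u hu]
    push_cast
    ring
  -- sums of inner edges
  have hsum : ∀ u ∈ I, u ≠ R.c → lab u + lab (R.par u) < k := by
    intro u hu huc
    by_cases h : (R.dep u : ZMod 2) = 0
    · refine l1 u hu _ (hpar u hu huc) h ?_
      intro h'
      have := hdpar u huc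
      rw [h, h'] at this
      exact absurd this (by decide)
    · have h' : (R.dep (R.par u) : ZMod 2) = 0 := by
        by_contra h2
        have := hdpar u huc
        rw [zmod2_ne h, zmod2_ne h2] at this
        exact absurd this (by decide)
      have := l1 _ (hpar u hu huc) u hu h' h
      omega
  have hsurj : ∀ j < k, ∃ u ∈ I, u ≠ R.c ∧ lab u + lab (R.par u) = j := by
    have himg : (I.erase R.c).image (fun u => lab u + lab (R.par u)) = range k := by
      apply eq_of_subset_of_card_le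
      · intro j hj
        rw [mem_image] at hj
        obtain ⟨u, hu, rfl⟩ := hj
        rw [mem_erase] at hu
        rw [mem_range]
        exact hsum u hu.2 hu.1
      · rw [card_range, card_image_of_injOn, card_erase_of_mem hc]
        · omega
        · intro u hu v hv h
          rw [mem_coe, mem_erase] at hu hv
          exact l3 u hu.2 v hv.2 hu.1 hv.1 h
    intro j hj
    have : j ∈ (I.erase R.c).image (fun u => lab u + lab (R.par u)) := by
      rw [himg, mem_range]
      exact hj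
    rw [mem_image] at this
    obtain ⟨u, hu, rfl⟩ := this
    rw [mem_erase] at hu
    exact ⟨u, hu.2, hu.1, rfl⟩
  -- the rest of the host
  let G' : SimpleGraph V :=
    { Adj := fun u v => G.Adj u v ∧ ∀ i < k, Mt s b φ i u ≠ v
      symm := ⟨fun u v h => ⟨h.1.symm, fun i hi e => h.2 i hi (by rw [← e, hMM])⟩⟩
      loopless := ⟨fun v h => G.loopless.irrefl v h.1⟩ }
  have hG' : ∀ v, G'.degree v = Fintype.card {i : {u : U // u ≠ R.c} // i.1 ∉ I} := by
    intro v
    have h5 : G'.neighborFinset v = G.neighborFinset v \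
        (range k).image (fun i => Mt s b φ i v) := by
      ext w
      simp only [SimpleGraph.mem_neighborFinset, mem_sdiff, mem_image, mem_range, not_exists,
        not_and]
      exact Iff.rfl
    have h6 : (range k).image (fun i => Mt s b φ i v) ⊆ G.neighborFinset v := by
      intro w hw
      rw [mem_image] at hw
      obtain ⟨i, hi, rfl⟩ := hw
      rw [mem_range] at hi
      rw [SimpleGraph.mem_neighborFinset]
      exact hMadj i hi v
    have h7 : ((range k).image (fun i => Mt s b φ i v)).card = k := by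
      rw [card_image_of_injOn, card_range]
      intro i hi j hj h
      rw [mem_coe, mem_range] at hi hj
      exact hMinj i hi j hj v h
    rw [← SimpleGraph.card_neighborFinset_eq_degree, h5, card_sdiff_of_subset h6, h7,
      SimpleGraph.card_neighborFinset_eq_degree]
    have h8 : Fintype.card {i : {u : U // u ≠ R.c} // i.1 ∉ I} = (univ \ I).card := by
      rw [← Fintype.card_coe]
      refine Fintype.card_congr
        { toFun := fun i => ⟨i.1.1, by rw [mem_sdiff]; exact ⟨mem_univ _, i.2⟩⟩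
          invFun := fun u => ⟨⟨u.1, fun h => (mem_sdiff.mp u.2).2 (h ▸ hc)⟩,
            (mem_sdiff.mp u.2).2⟩
          left_inv := fun i => rfl
          right_inv := fun u => rfl }
    rw [h8, card_sdiff_of_subset (subset_univ I), card_univ]
    have := hd v
    omega
  have hside : ∀ u v, G'.Adj u v → (decide (s u = 0)) ≠ (decide (s v = 0)) := by
    intro u v h
    have := hs u v h.1
    rw [this]
    generalize s u = p
    revert p
    decide
  obtain ⟨m', h1', h2', h3'⟩ := exists_factorization' (fun v => decide (s v = 0)) G' hG' hside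
  let m : {u : U // u ≠ R.c} → V → V := fun i =>
    if h : i.1 ∈ I then Mt s b φ (lab i.1 + lab (R.par i.1)) else m' ⟨i, h⟩
  have hmin : ∀ i : {u : U // u ≠ R.c}, i.1 ∈ I →
      m i = Mt s b φ (lab i.1 + lab (R.par i.1)) := fun i h => dif_pos h
  have hmout : ∀ (i : {u : U // u ≠ R.c}) (h : i.1 ∉ I), m i = m' ⟨i, h⟩ := fun i h => dif_neg h
  have h1 : ∀ i v, G.Adj v (m i v) := by
    intro i v
    by_cases h : i.1 ∈ I
    · rw [hmin i h]
      exact hMadj _ (hsum i.1 h i.2) v
    · rw [hmout i h]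
      exact (h1' _ v).1
  have h2 : ∀ i v, m i (m i v) = v := by
    intro i v
    by_cases h : i.1 ∈ I
    · rw [hmin i h]
      exact hMM _ v
    · rw [hmout i h]
      exact h2' _ v
  have h3 : ∀ u v, G.Adj u v → ∃! i, m i u = v := by
    intro u v huv
    by_cases h : ∃ j < k, Mt s b φ j u = v
    · obtain ⟨j, hj, hjv⟩ := h
      obtain ⟨w, hw, hwc, hwj⟩ := hsurj j hj
      refine ⟨⟨w, hwc⟩, ?_, ?_⟩
      · change m ⟨w, hwc⟩ u = v
        rw [hmin ⟨w, hwc⟩ hw]
        simp only
        rw [hwj, hjv]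
      · intro i hi
        by_cases hiI : i.1 ∈ I
        · have hi' : m i u = v := hi
          rw [hmin i hiI] at hi'
          have h9 := hMinj _ (hsum i.1 hiI i.2) j hj u (hi'.trans hjv.symm)
          exact Subtype.ext (l3 i.1 hiI w hw i.2 hwc (h9.trans hwj.symm))
        · have hi' : m i u = v := hi
          rw [hmout i hiI] at hi'
          have h9 := (h1' ⟨i, hiI⟩ u).2 j hj
          exact absurd (hjv.trans hi'.symm) h9
    · push Not at h
      have hG'uv : G'.Adj u v := ⟨huv, h⟩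
      obtain ⟨i, hi, hu⟩ := h3' u v hG'uv
      refine ⟨i.1, ?_, ?_⟩
      · change m i.1 u = v
        rw [hmout i.1 i.2]
        exact hi
      · intro j hj
        have hj' : m j u = v := hj
        by_cases hjI : j.1 ∈ I
        · rw [hmin j hjI] at hj'
          exact absurd hj' (h _ (hsum j.1 hjI j.2))
        · rw [hmout j hjI] at hj'
          rw [← hu ⟨j, hjI⟩ hj']
  have hphi : ∀ v, s v = 0 → ∀ u ∈ I,
      ((R.dep u : ZMod 2) = 0 → R.phi m v u = (φ ^ lab u).symm ((φ ^ lab R.c) v)) ∧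
      ((R.dep u : ZMod 2) ≠ 0 → R.phi m v u = b ((φ ^ lab u) ((φ ^ lab R.c) v))) :=
    fun v hv u hu => R.phi_alpha I hpar lab m hmin hbb hb hφ hv u hu
  have hsm : ∀ i v, s (m i v) = s v + 1 := fun i v => hs v _ (h1 i v)
  have hsphi := R.side_phi m hsm
  have hbi : Function.Injective b := fun x y hxy => by rw [← hbb x, hxy, hbb]
  -- labels are small
  have hlab : ∀ u ∈ I, ∀ v ∈ I, u ≠ v → lab u < k ∧ lab v < k := by
    have aux : ∀ u ∈ I, u ≠ R.c → lab u < k := by
      intro u hu huc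
      have := hsum u hu huc
      omega
    have aux2 : ∀ v ∈ I, v ≠ R.c → lab R.c < k := by
      intro v hv hvc
      by_cases h : (R.dep v : ZMod 2) = 0
      · have h4 : (R.dep (R.par v) : ZMod 2) ≠ 0 := by
          intro h'
          have := hdpar v hvc
          rw [h, h'] at this
          exact absurd this (by decide)
        have := l1 R.c hc _ (hpar v hv hvc) (by rw [R.dep_c]; rfl) h4
        omega
      · have := l1 R.c hc v hv (by rw [R.dep_c]; rfl) h
        omega
    intro u hu v hv huv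
    by_cases huc : u = R.c
    · have hvc : v ≠ R.c := fun h => huv (huc.trans h.symm)
      rw [huc]
      exact ⟨aux2 v hv hvc, aux v hv hvc⟩
    · refine ⟨aux u hu huc, ?_⟩
      by_cases hvc : v = R.c
      · rw [hvc]
        exact aux2 u hu huc
      · exact aux v hv hvc
  refine R.decompose_layer I hc hpar hout m h1 h2 h3 s hs ?_ ?_
  · intro v hv u hu u' hu' h
    by_contra hne
    obtain ⟨hl, hl'⟩ := hlab u hu u' hu' hne
    have hx0 : s ((φ ^ lab R.c) v) = 0 := by rw [s_pow hφ, hv]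
    have hdd : (R.dep u : ZMod 2) = R.dep u' := by
      have h4 := hsphi v u
      have h5 := hsphi v u'
      rw [h] at h4
      rw [h4] at h5
      exact add_left_cancel h5
    by_cases hu0 : (R.dep u : ZMod 2) = 0
    · rw [((hphi v hv u hu).1 hu0), ((hphi v hv u' hu').1 (hdd ▸ hu0))] at h
      exact hne (l2 u hu u' hu' hdd (pow_inj hinj hx0 hl hl' h))
    · rw [((hphi v hv u hu).2 hu0), ((hphi v hv u' hu').2 (hdd ▸ hu0))] at h
      exact hne (l2 u hu u' hu' hdd (hinj _ hx0 _ hl _ hl' (hbi h)))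
  · intro v hv z hz u hu w hw h
    have hwz := (h1' ⟨w, hw⟩ (R.phi m v z)).2
    rw [← hmout w hw, h] at hwz
    have hdd : (R.dep u : ZMod 2) = R.dep z + 1 := by
      have h4 := hsphi v u
      rw [← h, hsm, hsphi, hv, zero_add, zero_add] at h4
      exact h4.symm
    by_cases hz0 : (R.dep z : ZMod 2) = 0
    · have hu0 : (R.dep u : ZMod 2) ≠ 0 := by
        rw [hdd, hz0]
        decide
      apply hwz _ (l1 z hz u hu hz0 hu0)
      rw [((hphi v hv z hz).1 hz0), ((hphi v hv u hu).2 hu0)]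
      unfold Mt
      rw [if_pos (by rw [s_pow_inv hφ, s_pow hφ, hv]), add_comm, pow_add,
        Equiv.Perm.mul_apply, Equiv.apply_symm_apply]
    · have hu0 : (R.dep u : ZMod 2) = 0 := by
        rw [hdd, zmod2_ne hz0]
        decide
      apply hwz _ (l1 u hu z hz hu0 hz0)
      rw [((hphi v hv z hz).2 hz0), ((hphi v hv u hu).1 hu0)]
      unfold Mt
      rw [if_neg (by rw [hb, s_pow hφ, s_pow hφ, hv]; decide), hbb, Equiv.symm_apply_eq,
        add_comm, pow_add, Equiv.Perm.mul_apply, Equiv.apply_symm_apply]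

end RT

end Pool.Agent.Lib.MP_c5b475_co
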