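import Mathlib

set_option autoImplicit false

/-!
# Definitions: decompositions, lobsters, α-labelled cores
-/

namespace Pool.Agent.Lib.MP_c5b475_co

/-- `T` decomposes `G`: there is a family of embedded copies of `T` in `G` such that each edge of `G`
lies in exactly one copy. -/
def Decomposes {U V : Type} (T : SimpleGraph U) (G : SimpleGraph V) : Prop :=
  ∃ (ι : Type) (f : ι → (U ↪ V)),
    (∀ i, T.map (f i) ≤ G) ∧ ∀ e ∈ G.edgeSet, ∃! i, e ∈ (T.map (f i)).edgeSet

/-- `G` is bipartite and has a `K_{m,m}`-factor: its two sides can be written as `B × [m]` in such a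
way that the vertices `(b, i)` and `(b, j)` of different sides are adjacent for all `b`, `i`, `j`.
(For instance `K_{n,n}` with `m = n`.) -/
def HasFactor {V : Type} (G : SimpleGraph V) (m : ℕ) : Prop :=
  ∃ (B : Type) (e : (B × Fin m) ⊕ (B × Fin m) ≃ V),
    (∀ x y, ¬ G.Adj (e (Sum.inl x)) (e (Sum.inl y))) ∧
    (∀ x y, ¬ G.Adj (e (Sum.inr x)) (e (Sum.inr y))) ∧
    ∀ b i j, G.Adj (e (Sum.inl (b, i))) (e (Sum.inr (b, j)))

/-- A lobster: there is a path `P` of `T` such that every vertex is at distance at most two from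
some vertex of `P`. -/
def IsLobster {U : Type*} (T : SimpleGraph U) : Prop :=
  ∃ (a b : U) (P : T.Walk a b), P.IsPath ∧ ∀ w, ∃ x ∈ P.support, T.dist w x ≤ 2

/-- The non-leaf vertices: at least two different neighbours. -/
def IsInner {U : Type*} (T : SimpleGraph U) (u : U) : Prop :=
  ∃ v w, T.Adj u v ∧ T.Adj u w ∧ v ≠ w

/-- `T` has an α-labelled core with `k` edges: a set `I` of `k + 1` vertices inducing a connected
subgraph, every other vertex having at most one neighbour in `T` (so `I` contains all non-leaf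
vertices), together with a labelling `f` that is an α-labelling of the tree induced by `I`: it is
injective on `I` with values in `{0, …, k}`, of any two adjacent vertices of `I` exactly one has a
label at most `lam`, and different edges of the core have different label differences. -/
def AlphaCore {U : Type*} (T : SimpleGraph U) (k : ℕ) : Prop :=
  ∃ (I : Finset U) (f : U → ℕ) (lam : ℕ), I.card = k + 1 ∧ (T.induce (I : Set U)).Connected ∧
    (∀ u, u ∉ I → ∀ v w, T.Adj u v → T.Adj u w → v = w) ∧
    (∀ u ∈ I, f u ≤ k) ∧ (∀ u ∈ I, ∀ v ∈ I, f u = f v → u = v) ∧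
    (∀ u ∈ I, ∀ v ∈ I, T.Adj u v → (f u ≤ lam ↔ lam < f v)) ∧
    (∀ u ∈ I, ∀ v ∈ I, ∀ u' ∈ I, ∀ v' ∈ I, T.Adj u v → T.Adj u' v' → f u ≤ lam → f u' ≤ lam →
      f v + f u' = f v' + f u → u = u' ∧ v = v')

end Pool.Agent.Lib.MP_c5b475_co
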