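import Pool.Agent.Lib.MP_c5b475_co.Lobster
import Pool.Agent.Lib.MP_c5b475_co.Final
import Pool.Agent.Lib.MP_c5b475_co.Defs

set_option autoImplicit false

/-!
# Trees with an α-labelled core, and hosts with a `K_{m,m}`-factor
-/

namespace Pool.Agent.Lib.MP_c5b475_co

open Finset

/-- The parent of a vertex of a connected set containing the root is in the set. -/
theorem par_mem {U : Type*} [Fintype U] [DecidableEq U] {T : SimpleGraph U} (hT : T.IsTree)
    (R : RT T) (hR : R.dep = T.dist R.c) (I : Finset U) (hc : R.c ∈ I)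
    (hI : (T.induce (I : Set U)).Connected) : ∀ u ∈ I, u ≠ R.c → R.par u ∈ I := by
  intro u hu huc
  obtain ⟨p⟩ := hI.preconnected ⟨u, hu⟩ ⟨R.c, hc⟩
  let p' : T.Walk u R.c := p.map (SimpleGraph.Embedding.induce (I : Set U)).toHom
  have hp' : ∀ x ∈ p'.support, x ∈ I := by
    intro x hx
    have hx' : x ∈ (p.map (SimpleGraph.Embedding.induce (I : Set U)).toHom).support := hx
    rw [SimpleGraph.Walk.support_map, List.mem_map] at hx'
    obtain ⟨y, _, rfl⟩ := hx'
    exact y.2
  obtain ⟨q, hq, hl⟩ := hT.connected.exists_path_of_dist (R.par u) R.c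
  have hadj := R.adj_par huc
  have hlen : (SimpleGraph.Walk.cons hadj q).length = T.dist u R.c := by
    have h1 := R.dep_par u huc
    rw [hR] at h1
    rw [SimpleGraph.Walk.length_cons, hl, SimpleGraph.dist_comm (u := R.par u),
      SimpleGraph.dist_comm (u := u)]
    exact h1
  have hpath := SimpleGraph.Walk.isPath_of_length_eq_dist _ hlen
  have heq := (hT.existsUnique_path u R.c).unique hpath (SimpleGraph.Walk.bypass_isPath p')
  have hmem : R.par u ∈ (SimpleGraph.Walk.cons hadj q).support := by
    rw [SimpleGraph.Walk.support_cons]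
    exact List.mem_cons_of_mem _ (SimpleGraph.Walk.start_mem_support _)
  rw [heq] at hmem
  exact hp' _ (SimpleGraph.Walk.support_bypass_subset_support _ hmem)

theorem exists_of_core {U : Type*} [Fintype U] [DecidableEq U] {T : SimpleGraph U}
    (hT : T.IsTree) {k : ℕ} (h : AlphaCore T k) :
    ∃ (R : RT T) (I : Finset U) (lab : U → ℕ), R.c ∈ I ∧
      (∀ u ∈ I, u ≠ R.c → R.par u ∈ I) ∧ (∀ u, u ∉ I → R.par u ∈ I) ∧ k + 1 = I.card ∧
      (∀ u ∈ I, ∀ v ∈ I, (R.dep u : ZMod 2) = 0 → (R.dep v : ZMod 2) ≠ 0 →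
        lab u + lab v < k) ∧
      (∀ u ∈ I, ∀ v ∈ I, (R.dep u : ZMod 2) = R.dep v → lab u = lab v → u = v) ∧
      (∀ u ∈ I, ∀ v ∈ I, u ≠ R.c → v ≠ R.c →
        lab u + lab (R.par u) = lab v + lab (R.par v) → u = v) := by
  obtain ⟨I, f, lam, hcard, hconn, hleaf, hk, hinj, hside, hdiff⟩ := h
  have hne : I.Nonempty := by
    rw [← card_pos, hcard]
    omega
  obtain ⟨c, hcI⟩ := hne
  obtain ⟨R, hRc, hRd⟩ := exists_RT hT c
  subst hRc
  have hpar := par_mem hT R hRd I hcI hconn
  have hsym : ∀ u v, T.Adj u v → T.Adj v u := fun u v h => h.symm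
  -- sides
  have hsd : ∀ u, u ∈ I → ((f u ≤ lam) ↔ ((f R.c ≤ lam) ↔ (R.dep u : ZMod 2) = 0)) := by
    refine R.ind (P := fun u => u ∈ I →
      ((f u ≤ lam) ↔ ((f R.c ≤ lam) ↔ (R.dep u : ZMod 2) = 0))) ?_ ?_
    · intro _
      rw [R.dep_c]
      simp
    · intro u hu ih huI
      have h1 := ih (hpar u huI hu)
      have h2 := hside u huI _ (hpar u huI hu) (R.adj_par hu)
      have h3 := R.dep_par_cast hu
      have h4 : ((R.dep u : ZMod 2) = 0) ↔ ¬ ((R.dep (R.par u) : ZMod 2) = 0) := by
        rw [h3]
        generalize (R.dep (R.par u) : ZMod 2) = x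
        revert x
        decide
      rw [← not_le] at h2
      tauto
  refine ⟨R, I, fun u => if f u ≤ lam then lam - f u else f u - lam - 1, hcI, hpar, ?_,
    hcard.symm, ?_, ?_, ?_⟩
  · intro u hu
    by_contra hp
    have huc : u ≠ R.c := fun e => hu (by rw [e]; exact hcI)
    have hpc : R.par u ≠ R.c := fun e => hp (by rw [e]; exact hcI)
    have h1 := hleaf (R.par u) hp u (R.par (R.par u)) (R.adj_par huc).symm (R.adj_par hpc)
    have h2 := R.dep_par u huc
    have h3 := R.dep_par _ hpc
    rw [← h1] at h3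
    omega
  · intro u hu v hv h0 h1
    have hu' := hsd u hu
    have hv' := hsd v hv
    have hku := hk u hu
    have hkv := hk v hv
    simp only [h0, h1, iff_true, iff_false] at hu' hv'
    by_cases hc : f R.c ≤ lam
    · have h2 : f u ≤ lam := hu'.mpr hc
      have h3 : ¬ f v ≤ lam := fun h => (hv'.mp h) hc
      simp only [h2, h3, if_true, if_false]
      omega
    · have h2 : ¬ f u ≤ lam := fun h => hc (hu'.mp h)
      have h3 : f v ≤ lam := hv'.mpr hc
      simp only [h2, h3, if_true, if_false]
      omega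
  · intro u hu v hv hd he
    have hu' := hsd u hu
    have hv' := hsd v hv
    rw [← hd] at hv'
    have h1 : (f u ≤ lam) ↔ (f v ≤ lam) := hu'.trans hv'.symm
    apply hinj u hu v hv
    by_cases h2 : f u ≤ lam
    · have h3 := h1.mp h2
      simp only [h2, h3, if_true] at he
      omega
    · have h3 : ¬ f v ≤ lam := fun h => h2 (h1.mpr h)
      simp only [h2, h3, if_false] at he
      omega
  · intro u hu v hv huc hvc he
    have hpu := hpar u hu huc
    have hpv := hpar v hv hvc
    have hau := R.adj_par huc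
    have hav := R.adj_par hvc
    have h1 := hside u hu _ hpu hau
    have h2 := hside v hv _ hpv hav
    have h1' := hside _ hpu u hu hau.symm
    have h2' := hside _ hpv v hv hav.symm
    by_cases h3 : f u ≤ lam
    · have h4 : lam < f (R.par u) := h1.mp h3
      have h4' : ¬ f (R.par u) ≤ lam := not_le.mpr h4
      by_cases h5 : f v ≤ lam
      · have h6 : lam < f (R.par v) := h2.mp h5
        have h6' : ¬ f (R.par v) ≤ lam := not_le.mpr h6
        simp only [h3, h4', h5, h6', if_true, if_false] at he
        exact (hdiff u hu _ hpu v hv _ hpv hau hav h3 h5 (by omega)).1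
      · have h6 : f (R.par v) ≤ lam := h2'.mpr (not_le.mp h5)
        simp only [h3, h4', h5, h6, if_true, if_false] at he
        have h7 := hdiff u hu _ hpu _ hpv v hv hau hav.symm h3 h6 (by omega)
        exfalso
        have h8 := R.dep_par u huc
        have h9 := R.dep_par v hvc
        rw [← h7.1] at h9
        rw [h7.2] at h8
        omega
    · have h4 : f (R.par u) ≤ lam := h1'.mpr (not_le.mp h3)
      by_cases h5 : f v ≤ lam
      · have h6 : lam < f (R.par v) := h2.mp h5
        have h6' : ¬ f (R.par v) ≤ lam := not_le.mpr h6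
        simp only [h3, h4, h5, h6', if_true, if_false] at he
        have h7 := hdiff _ hpu u hu v hv _ hpv hau.symm hav h4 h5 (by omega)
        exfalso
        have h8 := R.dep_par u huc
        have h9 := R.dep_par v hvc
        rw [h7.1] at h8
        rw [← h7.2] at h9
        omega
      · have h6 : f (R.par v) ≤ lam := h2'.mpr (not_le.mp h5)
        simp only [h3, h4, h5, h6, if_true, if_false] at he
        exact (hdiff _ hpu u hu _ hpv v hv hau.symm hav.symm h4 h6 (by omega)).2

/-- A good labelling gives an α-labelled core. -/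
theorem RT.Good.alphaCore {U : Type*} [Fintype U] [DecidableEq U] {T : SimpleGraph U}
    {R : RT T} {I : Finset U} {v : U} {lab : U → ℕ} (h : R.Good I v lab)
    (hout : ∀ u, u ∉ I → R.par u ∈ I) {k : ℕ} (hk : I.card = k + 1) : AlphaCore T k := by
  have hcnt : R.cnt I 0 + R.cnt I 1 = I.card := R.cnt_add I (by decide)
  have hpos : 0 < R.cnt I 0 := by
    have := h.hlab R.c h.hc
    rw [R.dep_c] at this
    push_cast at this
    omega
  have hpar : ∀ u ∈ I, ∀ w ∈ I, T.Adj u w → (R.dep w : ZMod 2) = R.dep u + 1 := by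
    intro u _ w _ huw
    rcases (R.adj_iff u w).mp huw with ⟨h1, h2⟩ | ⟨h1, h2⟩
    · rw [R.dep_par_cast h1, h2]
      generalize (R.dep (R.par u) : ZMod 2) = x
      revert x
      decide
    · rw [R.dep_par_cast h1, h2]
  have h01 : ∀ u : U, (R.dep u : ZMod 2) ≠ 0 → (R.dep u : ZMod 2) = 1 := fun u => zmod2_ne
  refine ⟨I, fun u => if (R.dep u : ZMod 2) = 0 then R.cnt I 0 - 1 - lab u
    else R.cnt I 0 + lab u, R.cnt I 0 - 1, hk, ?_, ?_, ?_, ?_, ?_, ?_⟩
  · -- connected
    have hr : ∀ u, ∀ hu : u ∈ I,
        (T.induce (I : Set U)).Reachable ⟨u, hu⟩ ⟨R.c, h.hc⟩ := by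
      refine R.ind (P := fun u => ∀ hu : u ∈ I,
        (T.induce (I : Set U)).Reachable ⟨u, hu⟩ ⟨R.c, h.hc⟩) ?_ ?_
      · intro _
        exact SimpleGraph.Reachable.refl _
      · intro u hu ih huI
        have h1 := ih (h.hpar u huI hu)
        have h2 : (T.induce (I : Set U)).Adj ⟨u, huI⟩ ⟨R.par u, h.hpar u huI hu⟩ := by
          rw [SimpleGraph.comap_adj]
          exact R.adj_par hu
        exact h2.reachable.trans h1
    have : Nonempty (I : Set U) := ⟨⟨R.c, h.hc⟩⟩
    refine ⟨fun x y => ?_⟩
    exact (hr x.1 x.2).trans (hr y.1 y.2).symm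
  · -- leaves
    intro u hu w w' hw hw'
    have key : ∀ w, T.Adj u w → w = R.par u := by
      intro w hw
      rcases (R.adj_iff u w).mp hw with ⟨_, h2⟩ | ⟨h1, h2⟩
      · exact h2
      · exfalso
        apply hu
        rw [h2]
        by_cases hwI : w ∈ I
        · exact h.hpar w hwI h1
        · exact hout w hwI
    rw [key w hw, key w' hw']
  · intro u hu
    have h1 := h.hlab u hu
    by_cases h0 : (R.dep u : ZMod 2) = 0
    · simp only [h0, if_true]
      omega
    · simp only [h0, if_false]
      rw [h01 u h0] at h1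
      omega
  · intro u hu w hw he
    have h1 := h.hlab u hu
    have h2 := h.hlab w hw
    by_cases h0 : (R.dep u : ZMod 2) = 0
    · by_cases h0' : (R.dep w : ZMod 2) = 0
      · simp only [h0, h0', if_true] at he
        rw [h0] at h1
        rw [h0'] at h2
        exact h.hinj u hu w hw (h0.trans h0'.symm) (by omega)
      · simp only [h0, h0', if_true, if_false] at he
        omega
    · by_cases h0' : (R.dep w : ZMod 2) = 0
      · simp only [h0, h0', if_true, if_false] at he
        omega
      · simp only [h0, h0', if_false] at he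
        exact h.hinj u hu w hw ((h01 u h0).trans (h01 w h0').symm) (by omega)
  · intro u hu w hw huw
    have h1 := h.hlab u hu
    have h2 := h.hlab w hw
    have h3 := hpar u hu w hw huw
    by_cases h0 : (R.dep u : ZMod 2) = 0
    · have h0' : (R.dep w : ZMod 2) ≠ 0 := by
        rw [h3, h0]
        decide
      simp only [h0, h0', if_true, if_false]
      omega
    · have h0' : (R.dep w : ZMod 2) = 0 := by
        rw [h3, h01 u h0]
        decide
      simp only [h0, h0', if_true, if_false]
      omega
  · intro u hu w hw u' hu' w' hw' huw huw' hl hl' he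
    have hU : ∀ x ∈ I, (if (R.dep x : ZMod 2) = 0 then R.cnt I 0 - 1 - lab x
        else R.cnt I 0 + lab x) ≤ R.cnt I 0 - 1 → (R.dep x : ZMod 2) = 0 := by
      intro x hx hxl
      by_contra h0
      simp only [h0, if_false] at hxl
      omega
    have h0 := hU u hu hl
    have h0' := hU u' hu' hl'
    have h1 : (R.dep w : ZMod 2) ≠ 0 := by
      rw [hpar u hu w hw huw, h0]
      decide
    have h1' : (R.dep w' : ZMod 2) ≠ 0 := by
      rw [hpar u' hu' w' hw' huw', h0']
      decide
    simp only [h0, h0', h1, h1', if_true, if_false] at he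
    have h2 := h.hlab u hu
    have h2' := h.hlab u' hu'
    rw [h0] at h2
    rw [h0'] at h2'
    have hs : lab u + lab w = lab u' + lab w' := by omega
    -- translate to parent edges
    have hcase : ∀ x y, T.Adj x y → (x ≠ R.c ∧ y = R.par x) ∨ (y ≠ R.c ∧ x = R.par y) :=
      fun x y hxy => (R.adj_iff x y).mp hxy
    rcases hcase u w huw with ⟨a1, a2⟩ | ⟨a1, a2⟩
    · rcases hcase u' w' huw' with ⟨b1, b2⟩ | ⟨b1, b2⟩
      · have := h.hsum u hu u' hu' a1 b1 (by rw [← a2, ← b2]; exact hs)
        exact ⟨this, by rw [a2, b2, this]⟩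
      · have := h.hsum u hu w' hw' a1 b1 (by rw [← a2, ← b2]; omega)
        exfalso
        apply h1'
        rw [← this]
        exact h0
    · rcases hcase u' w' huw' with ⟨b1, b2⟩ | ⟨b1, b2⟩
      · have := h.hsum w hw u' hu' a1 b1 (by rw [← a2, ← b2]; omega)
        exfalso
        apply h1
        rw [this]
        exact h0'
      · have := h.hsum w hw w' hw' a1 b1 (by rw [← a2, ← b2]; omega)
        exact ⟨by rw [a2, b2, this], this⟩

end Pool.Agent.Lib.MP_c5b475_co
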