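import Pool.Agent.Lib.MP_c5b475_co.Host

set_option autoImplicit false

/-!
# Trees of diameter at most five are lobsters
-/

namespace Pool.Agent.Lib.MP_c5b475_co

open Finset

theorem lobster_of_diam {U : Type*} [Fintype U] [DecidableEq U] {T : SimpleGraph U}
    (hT : T.IsTree) (hD : ∀ u v, T.dist u v ≤ 5) : IsLobster T := by
  have := hT.connected.nonempty
  obtain ⟨c, hc⟩ := exists_center hT 5 hD
  obtain ⟨R, hRc, hRd⟩ := exists_RT hT c
  subst hRc
  by_cases h2 : ∀ v, R.dep v ≤ 2
  · refine ⟨R.c, R.c, SimpleGraph.Walk.nil, SimpleGraph.Walk.IsPath.nil, fun w => ⟨R.c, ?_, ?_⟩⟩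
    · simp
    · rw [SimpleGraph.dist_comm, ← hRd]
      exact h2 w
  · push Not at h2
    obtain ⟨v, hv⟩ := h2
    have hle : ∀ w, R.dep w ≤ 3 := by
      intro w
      have := hc w
      rw [← hRd] at this
      omega
    have hne : ∀ w, 0 < R.dep w → w ≠ R.c := by
      intro w hw h
      rw [h, R.dep_c] at hw
      omega
    -- data of a vertex of depth three
    have hdat : ∀ w, R.dep w = 3 → w ≠ R.c ∧ R.par w ≠ R.c ∧ R.par (R.par w) ≠ R.c ∧
        R.dep (R.par w) = 2 ∧ R.dep (R.par (R.par w)) = 1 ∧ R.par (R.par (R.par w)) = R.c := by
      intro w hw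
      have h1 := hne w (by omega)
      have h3 := R.dep_par w h1
      have h4 := hne (R.par w) (by omega)
      have h5 := R.dep_par _ h4
      have h6 := hne (R.par (R.par w)) (by omega)
      have h7 := R.dep_par _ h6
      refine ⟨h1, h4, h6, by omega, by omega, ?_⟩
      by_contra h8
      have := R.dep_par _ h8
      omega
    have hv3 : R.dep v = 3 := by
      have := hle v
      omega
    obtain ⟨v1, v2, v3, v4, v5, v6⟩ := hdat v hv3
    have hadj : T.Adj R.c (R.par (R.par v)) := by
      have := R.adj_par v3
      rw [v6] at this
      exact this.symm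
    refine ⟨R.c, R.par (R.par v), SimpleGraph.Walk.cons hadj SimpleGraph.Walk.nil, ?_, ?_⟩
    · rw [SimpleGraph.Walk.cons_isPath_iff]
      refine ⟨SimpleGraph.Walk.IsPath.nil, ?_⟩
      rw [SimpleGraph.Walk.support_nil, List.mem_singleton]
      exact v3.symm
    · intro w
      by_cases hw : R.dep w ≤ 2
      · refine ⟨R.c, SimpleGraph.Walk.start_mem_support _, ?_⟩
        rw [SimpleGraph.dist_comm, ← hRd]
        exact hw
      · have hw3 : R.dep w = 3 := by
          have := hle w
          omega
        obtain ⟨w1, w2, w3, w4, w5, w6⟩ := hdat w hw3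
        refine ⟨R.par (R.par v), SimpleGraph.Walk.end_mem_support _, ?_⟩
        have hx : R.par (R.par w) = R.par (R.par v) := by
          by_contra hx
          have hadj' : T.Adj R.c (R.par (R.par w)) := by
            have := R.adj_par w3
            rw [w6] at this
            exact this.symm
          let q : T.Walk v w := SimpleGraph.Walk.cons (R.adj_par v1)
            (SimpleGraph.Walk.cons (R.adj_par v2) (SimpleGraph.Walk.cons hadj.symm
              (SimpleGraph.Walk.cons hadj' (SimpleGraph.Walk.cons (R.adj_par w2).symm
                (SimpleGraph.Walk.cons (R.adj_par w1).symm SimpleGraph.Walk.nil)))))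
          have hdn : ∀ a b, R.dep a ≠ R.dep b → a ≠ b := fun a b h e => h (by rw [e])
          have hq : q.IsPath := by
            rw [SimpleGraph.Walk.isPath_def]
            simp only [q, SimpleGraph.Walk.support_cons, SimpleGraph.Walk.support_nil,
              List.nodup_cons, List.mem_cons, List.not_mem_nil, or_false, not_or,
              List.nodup_nil, not_false_eq_true, and_true]
            have hc0 := R.dep_c
            refine ⟨⟨?_, ?_, ?_, ?_, ?_, ?_⟩, ⟨?_, ?_, ?_, ?_, ?_⟩, ⟨?_, ?_, ?_, ?_⟩,
              ⟨?_, ?_, ?_⟩, ⟨?_, ?_⟩, ?_⟩
            · exact hdn _ _ (by omega)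
            · exact hdn _ _ (by omega)
            · exact hdn _ _ (by omega)
            · exact hdn _ _ (by omega)
            · exact hdn _ _ (by omega)
            · intro e
              rw [e] at hx
              exact hx rfl
            · exact hdn _ _ (by omega)
            · exact hdn _ _ (by omega)
            · exact hdn _ _ (by omega)
            · intro e
              rw [e] at hx
              exact hx rfl
            · exact hdn _ _ (by omega)
            · exact hdn _ _ (by omega)
            · exact fun e => hx e.symm
            · exact hdn _ _ (by omega)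
            · exact hdn _ _ (by omega)
            · exact hdn _ _ (by omega)
            · exact hdn _ _ (by omega)
            · exact hdn _ _ (by omega)
            · exact hdn _ _ (by omega)
            · exact hdn _ _ (by omega)
            · exact hdn _ _ (by omega)
          obtain ⟨p, hp, hl⟩ := hT.connected.exists_path_of_dist v w
          have heq := (hT.existsUnique_path v w).unique hp hq
          have h6 : q.length = 6 := rfl
          rw [heq, h6] at hl
          have := hD v w
          omega
        rw [← hx]
        have hwalk : (SimpleGraph.Walk.cons (R.adj_par w1)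
          (SimpleGraph.Walk.cons (R.adj_par w2) SimpleGraph.Walk.nil)).length = 2 := rfl
        rw [← hwalk]
        exact SimpleGraph.dist_le _

end Pool.Agent.Lib.MP_c5b475_co
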