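import Pool.Agent.Lib.MP_c5b475_co.Alpha

set_option autoImplicit false

/-!
# α-labellings of caterpillars
-/

namespace Pool.Agent.Lib.MP_c5b475_co

open Finset

variable {U : Type*} [Fintype U] [DecidableEq U] {T : SimpleGraph U} (R : RT T)

namespace RT

/-- Number of vertices of a given parity. -/
def cnt (A : Finset U) (a : ZMod 2) : ℕ := (A.filter (fun u => (R.dep u : ZMod 2) = a)).card

/-- A tight labelling of a par-closed set, with an active vertex. -/
structure Good (A : Finset U) (v : U) (lab : U → ℕ) : Prop where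
  hc : R.c ∈ A
  hv : v ∈ A
  hpar : ∀ u ∈ A, u ≠ R.c → R.par u ∈ A
  hlab : ∀ u ∈ A, lab u < R.cnt A (R.dep u)
  hact : lab v + 1 = R.cnt A (R.dep v)
  hinj : ∀ u ∈ A, ∀ w ∈ A, (R.dep u : ZMod 2) = R.dep w → lab u = lab w → u = w
  hsum : ∀ u ∈ A, ∀ w ∈ A, u ≠ R.c → w ≠ R.c →
    lab u + lab (R.par u) = lab w + lab (R.par w) → u = w

omit [Fintype U] in
theorem cnt_insert_same (A : Finset U) {u : U} (hu : u ∉ A) :
    R.cnt (insert u A) (R.dep u) = R.cnt A (R.dep u) + 1 := by
  unfold cnt
  rw [filter_insert, if_pos rfl, card_insert_of_notMem]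
  intro h
  exact hu (mem_filter.mp h).1

omit [Fintype U] in
theorem cnt_insert_other (A : Finset U) {u : U} {a : ZMod 2} (h : (R.dep u : ZMod 2) ≠ a) :
    R.cnt (insert u A) a = R.cnt A a := by
  unfold cnt
  rw [filter_insert, if_neg h]

omit [Fintype U] in
theorem cnt_add (A : Finset U) {a b : ZMod 2} (h : a ≠ b) : R.cnt A a + R.cnt A b = A.card := by
  unfold cnt
  rw [← card_filter_add_card_filter_not (s := A) (fun u => (R.dep u : ZMod 2) = a)]
  congr 2
  ext u
  simp only [mem_filter, and_congr_right_iff]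
  intro _
  generalize (R.dep u : ZMod 2) = x
  revert a b x
  decide

omit [Fintype U] [DecidableEq U] in
theorem dep_par_cast {u : U} (hu : u ≠ R.c) : (R.dep u : ZMod 2) = R.dep (R.par u) + 1 := by
  rw [← R.dep_par u hu]
  push_cast
  ring

omit [Fintype U] in
theorem Good.extend {A : Finset U} {v : U} {lab : U → ℕ} (h : R.Good A v lab) {u : U}
    (hu : u ∉ A) (huv : R.par u = v) :
    ∃ lab', R.Good (insert u A) v lab' ∧ R.Good (insert u A) u lab' := by
  have huc : u ≠ R.c := fun e => hu (e ▸ h.hc)
  have hdu : (R.dep u : ZMod 2) = R.dep v + 1 := by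
    rw [R.dep_par_cast huc, huv]
  have hne : (R.dep u : ZMod 2) ≠ R.dep v := by
    rw [hdu]
    generalize (R.dep v : ZMod 2) = x
    revert x
    decide
  have huv' : v ≠ u := by
    intro e
    rw [← e] at hu
    exact hu h.hv
  set q := R.cnt A (R.dep u) with hq
  have hlabne : ∀ w ∈ A, Function.update lab u q w = lab w := by
    intro w hw
    refine Function.update_of_ne ?_ _ _
    intro e
    rw [← e] at hu
    exact hu hw
  have hlabu : Function.update lab u q u = q := Function.update_self _ _ _
  have hsame : R.cnt (insert u A) (R.dep u) = q + 1 := R.cnt_insert_same A hu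
  have hoth : R.cnt (insert u A) (R.dep v) = R.cnt A (R.dep v) := R.cnt_insert_other A hne
  have hcase : ∀ w : U, (R.dep w : ZMod 2) = R.dep u ∨ (R.dep w : ZMod 2) = R.dep v := by
    intro w
    have h1 := hne
    generalize (R.dep w : ZMod 2) = x
    generalize (R.dep u : ZMod 2) = y at h1 ⊢
    generalize (R.dep v : ZMod 2) = z at h1 ⊢
    revert x y z
    decide
  have hpar : ∀ w ∈ insert u A, w ≠ R.c → R.par w ∈ insert u A := by
    intro w hw hwc
    rw [mem_insert] at hw ⊢
    rcases hw with rfl | hw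
    · right
      rw [huv]
      exact h.hv
    · right
      exact h.hpar w hw hwc
  have hlab : ∀ w ∈ insert u A, Function.update lab u q w < R.cnt (insert u A) (R.dep w) := by
    intro w hw
    rw [mem_insert] at hw
    rcases hw with rfl | hw
    · rw [hlabu, hsame]
      omega
    · rw [hlabne w hw]
      have h1 := h.hlab w hw
      rcases hcase w with h2 | h2
      · rw [h2, hsame]
        rw [h2] at h1
        omega
      · rw [h2, hoth]
        rw [h2] at h1
        exact h1
  have hinj : ∀ w ∈ insert u A, ∀ x ∈ insert u A, (R.dep w : ZMod 2) = R.dep x →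
      Function.update lab u q w = Function.update lab u q x → w = x := by
    intro w hw x hx hd he
    rw [mem_insert] at hw hx
    rcases hw with rfl | hw
    · rcases hx with rfl | hx
      · rfl
      · rw [hlabu, hlabne x hx] at he
        have := h.hlab x hx
        rw [← hd] at this
        omega
    · rcases hx with rfl | hx
      · rw [hlabu, hlabne w hw] at he
        have := h.hlab w hw
        rw [hd] at this
        omega
      · rw [hlabne w hw, hlabne x hx] at he
        exact h.hinj w hw x hx hd he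
  have hbound : ∀ w ∈ A, w ≠ R.c → lab w + lab (R.par w) < lab v + q := by
    intro w hw hwc
    have h1 := h.hlab w hw
    have h2 := h.hlab _ (h.hpar w hw hwc)
    have h3 := h.hact
    have h4 := R.dep_par_cast hwc
    rcases hcase w with h5 | h5
    · have h6 : (R.dep (R.par w) : ZMod 2) = R.dep v := by
        rw [h5, hdu] at h4
        exact (add_right_cancel h4).symm
      rw [h5] at h1
      rw [h6] at h2
      omega
    · have h6 : (R.dep (R.par w) : ZMod 2) = R.dep u := by
        rw [hdu]
        rw [h5] at h4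
        rw [h4, add_assoc]
        generalize (R.dep (R.par w) : ZMod 2) = x
        revert x
        decide
      rw [h5] at h1
      rw [h6] at h2
      omega
  have hsum : ∀ w ∈ insert u A, ∀ x ∈ insert u A, w ≠ R.c → x ≠ R.c →
      Function.update lab u q w + Function.update lab u q (R.par w) =
        Function.update lab u q x + Function.update lab u q (R.par x) → w = x := by
    intro w hw x hx hwc hxc he
    rw [mem_insert] at hw hx
    rcases hw with rfl | hw
    · rcases hx with rfl | hx
      · rfl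
      · rw [hlabu, huv, hlabne v h.hv, hlabne x hx, hlabne _ (h.hpar x hx hxc)] at he
        have := hbound x hx hxc
        omega
    · rcases hx with rfl | hx
      · rw [hlabu, huv, hlabne v h.hv, hlabne w hw, hlabne _ (h.hpar w hw hwc)] at he
        have := hbound w hw hwc
        omega
      · rw [hlabne w hw, hlabne x hx, hlabne _ (h.hpar w hw hwc),
          hlabne _ (h.hpar x hx hxc)] at he
        exact h.hsum w hw x hx hwc hxc he
  refine ⟨Function.update lab u q, ⟨mem_insert_of_mem h.hc, mem_insert_of_mem h.hv, hpar, hlab,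
    ?_, hinj, hsum⟩, ⟨mem_insert_of_mem h.hc, mem_insert_self _ _, hpar, hlab, ?_, hinj, hsum⟩⟩
  · rw [hlabne v h.hv, hoth]
    exact h.hact
  · rw [hlabu, hsame]

omit [Fintype U] in
theorem Good.extend_set {A : Finset U} {v : U} {lab : U → ℕ} (h : R.Good A v lab) (S : Finset U)
    (hS : ∀ u ∈ S, u ∉ A ∧ R.par u = v) : ∃ lab', R.Good (A ∪ S) v lab' := by
  induction S using Finset.induction_on with
  | empty => exact ⟨lab, by rwa [union_empty]⟩
  | insert u S huS ih =>
    obtain ⟨lab', h'⟩ := ih (fun w hw => hS w (mem_insert_of_mem hw))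
    obtain ⟨h1, h2⟩ := hS u (mem_insert_self _ _)
    have h3 : u ∉ A ∪ S := by
      rw [mem_union, not_or]
      exact ⟨h1, huS⟩
    obtain ⟨lab'', h'', _⟩ := h'.extend R h3 h2
    exact ⟨lab'', by rwa [union_insert]⟩

/-- Vertices that are the root or children in `N` of `p i` with `i < j`. -/
def stage (N : Finset U) (p : ℕ → U) (j : ℕ) : Finset U :=
  univ.filter (fun u => u = R.c ∨ (u ≠ R.c ∧ u ∈ N ∧ ∃ i < j, R.par u = p i))

theorem mem_stage (N : Finset U) (p : ℕ → U) (j : ℕ) (u : U) :
    u ∈ R.stage N p j ↔ u = R.c ∨ (u ≠ R.c ∧ u ∈ N ∧ ∃ i < j, R.par u = p i) := by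
  simp [stage]

theorem good_stage (N : Finset U) (p : ℕ → U) (m : ℕ) (h0 : p 0 = R.c)
    (hne : ∀ i < m, p (i + 1) ≠ R.c) (hN : ∀ i < m, p (i + 1) ∈ N)
    (hp : ∀ i < m, R.par (p (i + 1)) = p i)
    (hinj : ∀ i ≤ m, ∀ j ≤ m, p i = p j → i = j) :
    ∀ j ≤ m, ∃ lab, R.Good (R.stage N p j) (p j) lab := by
  intro j
  induction j with
  | zero =>
    intro _
    have hA : R.stage N p 0 = {R.c} := by
      ext u
      rw [mem_stage, mem_singleton]
      constructor
      · rintro (h | ⟨_, _, i, hi, _⟩)
        · exact h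
        · omega
      · intro h
        exact Or.inl h
    rw [hA, h0]
    refine ⟨fun _ => 0, mem_singleton_self _, mem_singleton_self _, ?_, ?_, ?_, ?_, ?_⟩
    · intro u hu huc
      rw [mem_singleton] at hu
      exact absurd hu huc
    · intro u hu
      rw [mem_singleton] at hu
      subst hu
      unfold cnt
      apply card_pos.mpr
      exact ⟨R.c, mem_filter.mpr ⟨mem_singleton_self _, rfl⟩⟩
    · unfold cnt
      rw [filter_singleton, if_pos rfl, card_singleton]
    · intro u hu w hw _ _
      rw [mem_singleton] at hu hw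
      rw [hu, hw]
    · intro u hu _ _ huc
      rw [mem_singleton] at hu
      exact absurd hu huc
  | succ j ih =>
    intro hj
    obtain ⟨lab, h⟩ := ih (by omega)
    -- the children of `p j` other than `p (j + 1)`
    let S : Finset U := univ.filter (fun u => u ≠ R.c ∧ u ∈ N ∧ R.par u = p j ∧ u ≠ p (j + 1))
    have hnot : ∀ u, u ≠ R.c → R.par u = p j → u ∉ R.stage N p j := by
      intro u huc hup hu
      rw [mem_stage] at hu
      rcases hu with hu | ⟨_, _, i, hi, hui⟩
      · exact huc hu
      · have := hinj i (by omega) j (by omega) (hui.symm.trans hup)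
        omega
    have hS : ∀ u ∈ S, u ∉ R.stage N p j ∧ R.par u = p j := by
      intro u hu
      rw [mem_filter] at hu
      exact ⟨hnot u hu.2.1 hu.2.2.2.1, hu.2.2.2.1⟩
    obtain ⟨lab', h'⟩ := h.extend_set R S hS
    have hx : p (j + 1) ∉ R.stage N p j ∪ S := by
      rw [mem_union, not_or]
      refine ⟨hnot _ (hne j (by omega)) (hp j (by omega)), ?_⟩
      intro h1
      rw [mem_filter] at h1
      exact h1.2.2.2.2 rfl
    obtain ⟨lab'', _, h''⟩ := h'.extend R hx (hp j (by omega))
    refine ⟨lab'', ?_⟩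
    have hA : R.stage N p (j + 1) = insert (p (j + 1)) (R.stage N p j ∪ S) := by
      ext u
      rw [mem_stage, mem_insert, mem_union, mem_stage, mem_filter]
      constructor
      · rintro (h1 | ⟨h1, hN1, i, hi, h2⟩)
        · exact Or.inr (Or.inl (Or.inl h1))
        · by_cases hij : i = j
          · subst hij
            by_cases h3 : u = p (i + 1)
            · exact Or.inl h3
            · exact Or.inr (Or.inr ⟨mem_univ _, h1, hN1, h2, h3⟩)
          · exact Or.inr (Or.inl (Or.inr ⟨h1, hN1, i, by omega, h2⟩))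
      · rintro (h1 | (h1 | ⟨h1, hN1, i, hi, h2⟩) | ⟨_, h1, hN1, h2, _⟩)
        · right
          subst h1
          exact ⟨hne j (by omega), hN j (by omega), j, by omega, hp j (by omega)⟩
        · exact Or.inl h1
        · exact Or.inr ⟨h1, hN1, i, by omega, h2⟩
        · exact Or.inr ⟨h1, hN1, j, by omega, h2⟩
    rw [hA]
    exact h''

theorem good_last (N : Finset U) (p : ℕ → U) (m : ℕ) (h0 : p 0 = R.c)
    (hne : ∀ i < m, p (i + 1) ≠ R.c) (hN : ∀ i < m, p (i + 1) ∈ N)
    (hp : ∀ i < m, R.par (p (i + 1)) = p i)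
    (hinj : ∀ i ≤ m, ∀ j ≤ m, p i = p j → i = j) :
    ∃ lab, R.Good (R.stage N p (m + 1)) (p m) lab := by
  obtain ⟨lab, h⟩ := R.good_stage N p m h0 hne hN hp hinj m le_rfl
  let S : Finset U := univ.filter (fun u => u ≠ R.c ∧ u ∈ N ∧ R.par u = p m)
  have hS : ∀ u ∈ S, u ∉ R.stage N p m ∧ R.par u = p m := by
    intro u hu
    rw [mem_filter] at hu
    refine ⟨?_, hu.2.2.2⟩
    intro h1
    rw [mem_stage] at h1
    rcases h1 with h1 | ⟨_, _, i, hi, hui⟩
    · exact hu.2.1 h1
    · have := hinj i (by omega) m le_rfl (hui.symm.trans hu.2.2.2)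
      omega
  obtain ⟨lab', h'⟩ := h.extend_set R S hS
  refine ⟨lab', ?_⟩
  have hA : R.stage N p (m + 1) = R.stage N p m ∪ S := by
    ext u
    rw [mem_stage, mem_union, mem_stage, mem_filter]
    constructor
    · rintro (h1 | ⟨h1, hN1, i, hi, h2⟩)
      · exact Or.inl (Or.inl h1)
      · by_cases hij : i = m
        · subst hij
          exact Or.inr ⟨mem_univ _, h1, hN1, h2⟩
        · exact Or.inl (Or.inr ⟨h1, hN1, i, by omega, h2⟩)
    · rintro ((h1 | ⟨h1, hN1, i, hi, h2⟩) | ⟨_, h1, hN1, h2⟩)
      · exact Or.inl h1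
      · exact Or.inr ⟨h1, hN1, i, by omega, h2⟩
      · exact Or.inr ⟨h1, hN1, m, by omega, h2⟩
  rw [hA]
  exact h'

omit [Fintype U] in
/-- The labelling conditions of `decompose_alpha`. -/
theorem Good.conds {A : Finset U} {v : U} {lab : U → ℕ} (h : R.Good A v lab) {k : ℕ}
    (hk : k + 1 = A.card) :
    (∀ u ∈ A, ∀ v ∈ A, (R.dep u : ZMod 2) = 0 → (R.dep v : ZMod 2) ≠ 0 → lab u + lab v < k) := by
  intro u hu w hw h0 h1
  have h2 := h.hlab u hu
  have h3 := h.hlab w hw
  have h4 : (R.dep u : ZMod 2) ≠ R.dep w := by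
    rw [h0]
    exact h1.symm
  have h5 := R.cnt_add A h4
  omega

end RT

end Pool.Agent.Lib.MP_c5b475_co
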