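import Pool.Agent.Lib.MP_c5b475_co.Core

set_option autoImplicit false

/-!
# Hosts with a `K_{m,m}`-factor, lobsters
-/

namespace Pool.Agent.Lib.MP_c5b475_co

open Finset

/-- The side of a vertex. -/
def sd (B : Type) (m : ℕ) : (B × Fin m) ⊕ (B × Fin m) → ZMod 2 := Sum.elim (fun _ => 0) (fun _ => 1)

/-- Rotation of the left side within the blocks. -/
def rotate (B : Type) (m : ℕ) : Equiv.Perm ((B × Fin m) ⊕ (B × Fin m)) :=
  Equiv.sumCongr (Equiv.prodCongr (Equiv.refl B) (finRotate m)) (Equiv.refl _)

theorem rotate_pow (B : Type) (m i : ℕ) (β : B) (x : Fin m) :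
    (rotate B m ^ i) (Sum.inl (β, x)) = Sum.inl (β, (finRotate m ^ i) x) := by
  induction i with
  | zero => rfl
  | succ i ih =>
    rw [pow_succ', Equiv.Perm.mul_apply, ih, pow_succ', Equiv.Perm.mul_apply]
    rfl

theorem finRotate_pow_val (m i : ℕ) (x : Fin (m + 1)) :
    (((finRotate (m + 1) ^ i) x : Fin (m + 1)) : ℕ) = ((x : ℕ) + i) % (m + 1) := by
  induction i with
  | zero =>
    rw [pow_zero, Equiv.Perm.one_apply, add_zero, Nat.mod_eq_of_lt x.2]
  | succ i ih =>
    rw [pow_succ', Equiv.Perm.mul_apply, finRotate_apply, Fin.val_add, ih, Fin.val_one',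
      Nat.mod_add_mod, Nat.add_mod_mod, add_assoc]

theorem finRotate_pow_inj (m i j : ℕ) (hi : i < m) (hj : j < m) (x : Fin m)
    (h : (finRotate m ^ i) x = (finRotate m ^ j) x) : i = j := by
  cases m with
  | zero => exact absurd hi (by omega)
  | succ m =>
    have h1 := congrArg Fin.val h
    rw [finRotate_pow_val, finRotate_pow_val] at h1
    have h2 : i ≡ j [MOD (m + 1)] := Nat.ModEq.add_left_cancel' _ h1
    exact Nat.ModEq.eq_of_lt_of_lt h2 hi hj

/-- **Trees with an α-labelled core decompose all regular bipartite graphs with a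
`K_{m,m}`-factor**, `m` at least the number of edges of the core. -/
theorem core_host {n k : ℕ} {T : SimpleGraph (Fin (n + 1))} (hT : T.IsTree)
    (h : AlphaCore T k) (B : Type) [Fintype B] [DecidableEq B] (m : ℕ) (hkm : k ≤ m)
    (G : SimpleGraph ((B × Fin m) ⊕ (B × Fin m))) [DecidableRel G.Adj]
    (hG : G.IsRegularOfDegree n) (hl : ∀ x y, ¬ G.Adj (Sum.inl x) (Sum.inl y))
    (hr : ∀ x y, ¬ G.Adj (Sum.inr x) (Sum.inr y))
    (hK : ∀ β i j, G.Adj (Sum.inl (β, i)) (Sum.inr (β, j))) : Decomposes T G := by
  obtain ⟨R, I, lab, hc, hpar, hout, hk, l1, l2, l3⟩ := exists_of_core hT h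
  obtain ⟨f, hf1, hf2⟩ := R.decompose_alpha I hc hpar hout lab k hk l1 l2 l3
    (fun v => by rw [hG v, Fintype.card_fin]) (sd B m)
    (by
      rintro (u | u) (v | v) huv
      · exact absurd huv (hl u v)
      · simp [sd]
      · simp only [sd, Sum.elim_inl, Sum.elim_inr]
        decide
      · exact absurd huv (hr u v))
    Sum.swap (rotate B m)
    (fun v => Sum.swap_swap v)
    (by
      rintro (v | v)
      · simp [sd]
      · simp only [sd, Sum.elim_inr, Sum.swap_inr, Sum.elim_inl]
        decide)
    (by
      rintro (v | v) <;> simp [sd, rotate])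
    (by
      rintro (v | v) hv i hi
      · obtain ⟨β, x⟩ := v
        rw [rotate_pow]
        exact hK β x _
      · simp [sd] at hv)
    (by
      rintro (v | v) hv i hi j hj hij
      · obtain ⟨β, x⟩ := v
        rw [rotate_pow, rotate_pow] at hij
        have h1 := congrArg Prod.snd (Sum.inl_injective hij)
        exact finRotate_pow_inj m i j (by omega) (by omega) x h1
      · simp [sd] at hv)
  exact ⟨_, f, hf1, hf2⟩

/-- Decompositions are transported by isomorphisms of the host. -/
theorem Decomposes.iso {U V W : Type} {T : SimpleGraph U} {G : SimpleGraph V} {H : SimpleGraph W}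
    (h : Decomposes T G) (e : V ≃ W) (he : ∀ u v, H.Adj (e u) (e v) ↔ G.Adj u v) :
    Decomposes T H := by
  obtain ⟨ι, f, h1, h2⟩ := h
  refine ⟨ι, fun i => (f i).trans e.toEmbedding, ?_, ?_⟩
  · intro i x y hxy
    rw [SimpleGraph.map_adj] at hxy
    obtain ⟨a, b, hab, rfl, rfl⟩ := hxy
    change H.Adj (e (f i a)) (e (f i b))
    rw [he]
    apply h1 i
    rw [SimpleGraph.map_adj]
    exact ⟨a, b, hab, rfl, rfl⟩
  · intro d hd
    have key : ∀ i x y, s(x, y) ∈ (T.map (f i)).edgeSet ↔
        s(e x, e y) ∈ (T.map ((f i).trans e.toEmbedding)).edgeSet := by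
      intro i x y
      rw [SimpleGraph.mem_edgeSet, SimpleGraph.mem_edgeSet, SimpleGraph.map_adj,
        SimpleGraph.map_adj]
      constructor
      · rintro ⟨a, b, hab, rfl, rfl⟩
        exact ⟨a, b, hab, rfl, rfl⟩
      · rintro ⟨a, b, hab, ha, hb⟩
        exact ⟨a, b, hab, e.injective ha, e.injective hb⟩
    induction d using Sym2.ind with
    | _ x y =>
      obtain ⟨x, rfl⟩ := e.surjective x
      obtain ⟨y, rfl⟩ := e.surjective y
      have hd' : s(x, y) ∈ G.edgeSet := (he x y).mp hd
      obtain ⟨i, hi, hu⟩ := h2 _ hd'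
      exact ⟨i, (key i x y).mp hi, fun j hj => hu j ((key j x y).mpr hj)⟩

/-- The case of a host with a `K_{m,m}`-factor, up to isomorphism. -/
theorem core_factor {n k : ℕ} {T : SimpleGraph (Fin (n + 1))} (hT : T.IsTree)
    (h : AlphaCore T k) {V : Type} [Fintype V] [DecidableEq V] (G : SimpleGraph V)
    [DecidableRel G.Adj] (hG : G.IsRegularOfDegree n) {m : ℕ} (hkm : k ≤ m)
    (hf : HasFactor G m) : Decomposes T G := by
  classical
  obtain ⟨B, e, hl, hr, hK⟩ := hf
  rcases Nat.eq_zero_or_pos m with rfl | hm
  · -- the empty host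
    have hV : IsEmpty V := by
      refine ⟨fun v => ?_⟩
      rcases e.symm v with ⟨_, x⟩ | ⟨_, x⟩
      · exact Fin.elim0 x
      · exact Fin.elim0 x
    refine ⟨Empty, fun i => i.elim, fun i => i.elim, ?_⟩
    intro d _
    induction d using Sym2.ind with
    | _ x y => exact (hV.false x).elim
  · have hB : Finite B := by
      refine Finite.of_injective (fun b => e (Sum.inl (b, ⟨0, hm⟩))) ?_
      intro b b' hbb
      have h1 := e.injective hbb
      have h2 := Sum.inl_injective h1
      exact congrArg Prod.fst h2
    have := Fintype.ofFinite B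
    let G' : SimpleGraph ((B × Fin m) ⊕ (B × Fin m)) := G.comap e
    have hdeg : G'.IsRegularOfDegree n := by
      intro v
      rw [← hG (e v), ← SimpleGraph.card_neighborFinset_eq_degree,
        ← SimpleGraph.card_neighborFinset_eq_degree]
      refine card_bij (fun w _ => e w) ?_ ?_ ?_
      · intro w hw
        rw [SimpleGraph.mem_neighborFinset] at hw ⊢
        exact hw
      · intro w _ w' _ hww
        exact e.injective hww
      · intro w hw
        rw [SimpleGraph.mem_neighborFinset] at hw
        refine ⟨e.symm w, ?_, e.apply_symm_apply w⟩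
        rw [SimpleGraph.mem_neighborFinset, SimpleGraph.comap_adj, e.apply_symm_apply]
        exact hw
    have h1 : Decomposes T G' := core_host hT h B m hkm G' hdeg hl hr hK
    exact h1.iso e (fun u v => Iff.rfl)

/-- The complete bipartite graph has the trivial factor. -/
theorem complete_hasFactor (n : ℕ) : HasFactor (completeBipartiteGraph (Fin n) (Fin n)) n := by
  refine ⟨Unit, Equiv.sumCongr (Equiv.punitProd (Fin n)) (Equiv.punitProd (Fin n)), ?_, ?_, ?_⟩
  · intro x y
    simp
  · intro x y
    simp
  · intro _ i j
    simp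

theorem complete_regular (n : ℕ) [DecidableRel (completeBipartiteGraph (Fin n) (Fin n)).Adj] :
    (completeBipartiteGraph (Fin n) (Fin n)).IsRegularOfDegree n := by
  intro v
  rw [← SimpleGraph.card_neighborFinset_eq_degree]
  rcases v with v | v
  · have : (completeBipartiteGraph (Fin n) (Fin n)).neighborFinset (Sum.inl v) =
        univ.image Sum.inr := by
      ext w
      rw [SimpleGraph.mem_neighborFinset, mem_image]
      rcases w with w | w
      · simp
      · simp
    rw [this, card_image_of_injective _ Sum.inr_injective]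
    simp
  · have : (completeBipartiteGraph (Fin n) (Fin n)).neighborFinset (Sum.inr v) =
        univ.image Sum.inl := by
      ext w
      rw [SimpleGraph.mem_neighborFinset, mem_image]
      rcases w with w | w
      · simp
      · simp
    rw [this, card_image_of_injective _ Sum.inl_injective]
    simp

/-- Removing a leaf at the start of a dominating path. -/
theorem dominating_tail {U : Type*} {T : SimpleGraph U} (hT : T.Connected) {a b y : U}
    (h : T.Adj a y) (P : T.Walk y b) (ha : ¬ IsInner T a)
    (hdom : ∀ w, ∃ x ∈ (SimpleGraph.Walk.cons h P).support, T.dist w x ≤ 2) :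
    ∀ w, ∃ x ∈ P.support, T.dist w x ≤ 2 := by
  intro w
  obtain ⟨x, hx, hd⟩ := hdom w
  rw [SimpleGraph.Walk.support_cons, List.mem_cons] at hx
  rcases hx with rfl | hx
  · refine ⟨y, SimpleGraph.Walk.start_mem_support _, ?_⟩
    obtain ⟨q, hq⟩ := hT.exists_walk_length_eq_dist x w
    cases q with
    | nil =>
      rw [SimpleGraph.dist_eq_one_iff_adj.mpr h]
      omega
    | cons h1 q' =>
      rename_i z
      have hz : z = y := by
        by_contra hne
        exact ha ⟨z, y, h1, h, hne⟩
      subst hz
      rw [SimpleGraph.Walk.length_cons] at hq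
      have h2 : T.dist z w ≤ q'.length := SimpleGraph.dist_le _
      rw [SimpleGraph.dist_comm] at hd
      rw [SimpleGraph.dist_comm]
      omega
  · exact ⟨x, hx, hd⟩

/-- A lobster with at least three vertices has a dominating path whose ends are not leaves. -/
theorem exists_inner_ends {U : Type*} [Fintype U] [DecidableEq U] {T : SimpleGraph U}
    (hT : T.Connected) (h : IsLobster T) (hin : ∃ u, IsInner T u) :
    ∃ (a b : U) (P : T.Walk a b), P.IsPath ∧ (∀ w, ∃ x ∈ P.support, T.dist w x ≤ 2) ∧
      IsInner T a ∧ IsInner T b := by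
  classical
  have hex : ∃ l : ℕ, ∃ (a b : U) (P : T.Walk a b), P.IsPath ∧
      (∀ w, ∃ x ∈ P.support, T.dist w x ≤ 2) ∧ P.length = l := by
    obtain ⟨a, b, P, h1, h2⟩ := h
    exact ⟨P.length, a, b, P, h1, h2, rfl⟩
  obtain ⟨a, b, P, hP, hdom, hlen⟩ := Nat.find_spec hex
  have hmin : ∀ (a b : U) (P : T.Walk a b), P.IsPath →
      (∀ w, ∃ x ∈ P.support, T.dist w x ≤ 2) → Nat.find hex ≤ P.length :=
    fun a b P h1 h2 => Nat.find_min' hex ⟨a, b, P, h1, h2, rfl⟩
  -- the start of a minimal path of positive length is not a leaf
  have key : ∀ (a b : U) (P : T.Walk a b), P.IsPath →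
      (∀ w, ∃ x ∈ P.support, T.dist w x ≤ 2) → P.length = Nat.find hex → 0 < P.length →
      IsInner T a := by
    intro a b P hP hdom hlen hpos
    by_contra ha
    cases P with
    | nil =>
      rw [SimpleGraph.Walk.length_nil] at hpos
      omega
    | cons h1 P' =>
      have h2 := hmin _ _ P' hP.of_cons (dominating_tail hT h1 P' ha hdom)
      rw [SimpleGraph.Walk.length_cons] at hlen
      omega
  by_cases hpos : 0 < P.length
  · refine ⟨a, b, P, hP, hdom, key a b P hP hdom hlen hpos, ?_⟩
    refine key b a P.reverse hP.reverse ?_ ?_ ?_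
    · intro w
      obtain ⟨x, hx, hd⟩ := hdom w
      refine ⟨x, ?_, hd⟩
      rw [SimpleGraph.Walk.support_reverse, List.mem_reverse]
      exact hx
    · rw [SimpleGraph.Walk.length_reverse]
      exact hlen
    · rw [SimpleGraph.Walk.length_reverse]
      exact hpos
  · have h0 : P.length = 0 := by omega
    have hab := SimpleGraph.Walk.eq_of_length_eq_zero h0
    subst hab
    have hd : ∀ w, T.dist w a ≤ 2 := by
      intro w
      obtain ⟨x, hx, hd⟩ := hdom w
      cases P with
      | nil =>
        rw [SimpleGraph.Walk.support_nil, List.mem_singleton] at hx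
        rw [← hx]
        exact hd
      | cons h1 P' =>
        rw [SimpleGraph.Walk.length_cons] at h0
        omega
    by_cases ha : IsInner T a
    · refine ⟨a, a, SimpleGraph.Walk.nil, SimpleGraph.Walk.IsPath.nil, fun w => ⟨a, ?_, hd w⟩,
        ha, ha⟩
      exact SimpleGraph.Walk.start_mem_support _
    · -- the neighbour of the leaf `a`
      obtain ⟨u, hu⟩ := hin
      have hua : u ≠ a := fun e => ha (e ▸ hu)
      obtain ⟨q⟩ := hT.preconnected a u
      have hq : ¬ q.Nil := by
        intro hn
        exact hua hn.eq.symm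
      have hadj := q.adj_snd hq
      have hnil : ∀ w, ∃ x ∈ (SimpleGraph.Walk.nil : T.Walk q.snd q.snd).support,
          T.dist w x ≤ 2 := by
        refine dominating_tail hT hadj SimpleGraph.Walk.nil ha ?_
        intro w
        exact ⟨a, SimpleGraph.Walk.start_mem_support _, hd w⟩
      refine ⟨q.snd, q.snd, SimpleGraph.Walk.nil, SimpleGraph.Walk.IsPath.nil, hnil, ?_, ?_⟩
      all_goals
        by_cases hus : u = q.snd
        · rw [← hus]
          exact hu
        · -- u is at distance at most two from a, so adjacent to the neighbour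
          obtain ⟨r, hr⟩ := hT.exists_walk_length_eq_dist a u
          have h2 := hd u
          rw [SimpleGraph.dist_comm] at h2
          cases r with
          | nil => exact absurd rfl hua
          | cons h1 r' =>
            rename_i z
            have hz : z = q.snd := by
              by_contra hne
              exact ha ⟨z, q.snd, h1, hadj, hne⟩
            cases r' with
            | nil => exact absurd hz hus
            | cons h3 r'' =>
              rename_i z'
              refine ⟨a, z', hadj.symm, ?_, ?_⟩
              · rw [← hz]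
                exact h3
              · intro e
                have : r''.length = 0 := by
                  rw [SimpleGraph.Walk.length_cons, SimpleGraph.Walk.length_cons] at hr
                  omega
                have := SimpleGraph.Walk.eq_of_length_eq_zero this
                exact hua (this.symm.trans e.symm)

/-- Lobsters have α-labelled cores. -/
theorem lobster_core {U : Type*} [Fintype U] [DecidableEq U] {T : SimpleGraph U}
    (hT : T.IsTree) (N : Finset U) (hNin : ∀ u, IsInner T u → u ∈ N) {a b : U} (P : T.Walk a b)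
    (hP : P.IsPath) (hPN : ∀ u ∈ P.support, u ∈ N)
    (hdom : ∀ w, ∃ x ∈ P.support, T.dist w x ≤ 2) :
    ∃ k, k + 1 ≤ N.card ∧ AlphaCore T k := by
  obtain ⟨R, hRa, hRd⟩ := exists_RT hT a
  subst hRa
  have hinj : ∀ i ≤ P.length, ∀ j ≤ P.length, P.getVert i = P.getVert j → i = j := by
    intro i hi j hj h
    exact hP.getVert_injOn (by simpa using hi) (by simpa using hj) h
  have h0 : P.getVert 0 = R.c := P.getVert_zero
  have hne : ∀ i < P.length, P.getVert (i + 1) ≠ R.c := by
    intro i hi h
    have := hinj (i + 1) (by omega) 0 (by omega) (h.trans h0.symm)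
    omega
  have hp : ∀ i < P.length, R.par (P.getVert (i + 1)) = P.getVert i := by
    intro i
    induction i with
    | zero =>
      intro hi
      have hadj := P.adj_getVert_succ hi
      rcases (R.adj_iff _ _).mp hadj with ⟨h1, _⟩ | ⟨_, h2⟩
      · exact absurd h0 h1
      · exact h2.symm
    | succ i ih =>
      intro hi
      have hadj := P.adj_getVert_succ hi
      rcases (R.adj_iff _ _).mp hadj with ⟨_, h2⟩ | ⟨_, h2⟩
      · rw [ih (by omega)] at h2
        have := hinj _ (by omega) _ (by omega) h2
        omega
      · exact h2.symm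
  have hPN' : ∀ i, P.getVert i ∈ N := fun i => hPN _ (P.getVert_mem_support i)
  obtain ⟨lab, hgood⟩ := R.good_last N P.getVert P.length h0 hne (fun i _ => hPN' _) hp hinj
  have hsupp : ∀ x ∈ P.support, ∃ i ≤ P.length, P.getVert i = x := by
    intro x hx
    rw [SimpleGraph.Walk.mem_support_iff_exists_getVert] at hx
    obtain ⟨i, hi, hi'⟩ := hx
    exact ⟨i, hi', hi⟩
  set I := R.stage N P.getVert (P.length + 1) with hI
  have hPI : ∀ i ≤ P.length, P.getVert i ∈ I := by
    intro i hi
    rw [hI, RT.mem_stage]
    cases i with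
    | zero => exact Or.inl h0
    | succ i => exact Or.inr ⟨hne i (by omega), hPN' _, i, by omega, hp i (by omega)⟩
  have hchild : ∀ i ≤ P.length, ∀ u, u ≠ R.c → u ∈ N → R.par u = P.getVert i → u ∈ I := by
    intro i hi u hu huN hup
    rw [hI, RT.mem_stage]
    exact Or.inr ⟨hu, huN, i, by omega, hup⟩
  -- inner neighbours of the path are inside
  have hnb : ∀ i ≤ P.length, ∀ u, IsInner T u → T.Adj (P.getVert i) u → u ∈ I := by
    intro i hi u hui hu
    rcases (R.adj_iff _ _).mp hu with ⟨h1, h2⟩ | ⟨h1, h2⟩
    · rw [h2]
      exact hgood.hpar _ (hPI i hi) h1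
    · exact hchild i hi u h1 (hNin u hui) h2.symm
  have hIN : I ⊆ N := by
    intro u hu
    rw [hI, RT.mem_stage] at hu
    rcases hu with hu | hu
    · rw [hu, ← h0]
      exact hPN' 0
    · exact hu.2.1
  refine ⟨I.card - 1, ?_, hgood.alphaCore ?_ ?_⟩
  · have h1 := card_le_card hIN
    have : 0 < I.card := card_pos.mpr ⟨_, hgood.hc⟩
    omega
  · intro w hw
    obtain ⟨x, hx, hd⟩ := hdom w
    obtain ⟨i, hi, rfl⟩ := hsupp x hx
    have hwc : w ≠ R.c := fun e => hw (by rw [e]; exact hgood.hc)
    obtain ⟨q, hq⟩ := hT.connected.exists_walk_length_eq_dist w (P.getVert i)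
    have hlen : q.length ≤ 2 := by omega
    -- first vertex after w
    cases q with
    | nil => exact absurd (hPI i hi) hw
    | cons h1 q' =>
      rename_i y
      have hy : y ∈ I := by
        cases q' with
        | nil => exact hPI i hi
        | cons h2 q'' =>
          have : q''.length = 0 := by
            rw [SimpleGraph.Walk.length_cons, SimpleGraph.Walk.length_cons] at hlen
            omega
          have hend := SimpleGraph.Walk.eq_of_length_eq_zero this
          subst hend
          refine hnb i hi y ⟨w, P.getVert i, h1.symm, h2, ?_⟩ h2.symm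
          intro e
          apply hw
          rw [e]
          exact hPI i hi
      rcases (R.adj_iff _ _).mp h1 with ⟨_, h2⟩ | ⟨h2, h3⟩
      · rw [← h2]
        exact hy
      · exfalso
        apply hw
        rw [h3]
        exact hgood.hpar y hy h2
  · have : 0 < I.card := card_pos.mpr ⟨_, hgood.hc⟩
    omega

/-- A lobster has an α-labelled core with at most as many edges as the lobster has non-leaf
vertices (in fact fewer, unless it has at most one edge). -/
theorem lobster_core' {U : Type*} [Fintype U] [DecidableEq U] {T : SimpleGraph U}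
    (hT : T.IsTree) (h : IsLobster T) (N : Finset U) (hN : ∀ u, IsInner T u ↔ u ∈ N) :
    ∃ k, k ≤ N.card ∧ AlphaCore T k := by
  by_cases hin : ∃ u, IsInner T u
  · obtain ⟨a, b, P, hP, hdom, ha, hb⟩ := exists_inner_ends hT.connected h hin
    have hPN : ∀ u ∈ P.support, u ∈ N := by
      intro u hu
      rw [SimpleGraph.Walk.mem_support_iff_exists_getVert] at hu
      obtain ⟨i, rfl, hi⟩ := hu
      rw [← hN]
      by_cases hi0 : i = 0
      · subst hi0
        rw [SimpleGraph.Walk.getVert_zero]
        exact ha
      · by_cases hil : i = P.length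
        · subst hil
          rw [SimpleGraph.Walk.getVert_length]
          exact hb
        · obtain ⟨j, rfl⟩ := Nat.exists_eq_succ_of_ne_zero hi0
          have h1 := P.adj_getVert_succ (i := j) (by omega)
          have h2 := P.adj_getVert_succ (i := j + 1) (by omega)
          refine ⟨_, _, h1.symm, h2, ?_⟩
          intro e
          have := hP.getVert_injOn (by simp; omega) (by simp; omega) e
          omega
    obtain ⟨k, hk, hcore⟩ := lobster_core hT N (fun u hu => (hN u).mp hu) P hP hPN hdom
    exact ⟨k, by omega, hcore⟩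
  · -- no inner vertex: a single vertex is a core
    obtain ⟨a, _, _, _, _⟩ := h
    refine ⟨0, Nat.zero_le _, {a}, fun _ => 0, 0, by simp, ?_, ?_, ?_, ?_, ?_, ?_⟩
    · have hne : Nonempty ((({a} : Finset U) : Set U) : Type _) := ⟨⟨a, by simp⟩⟩
      refine ⟨fun x y => ?_⟩
      have : x = y := by
        obtain ⟨x, hx⟩ := x
        obtain ⟨y, hy⟩ := y
        have hx' : x = a := by simpa using hx
        have hy' : y = a := by simpa using hy
        subst hx'
        subst hy'
        rfl
      rw [this]
    · intro u _ v w hv hw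
      by_contra hne
      exact hin ⟨u, v, w, hv, hw, hne⟩
    · intro u _
      exact le_rfl
    · intro u hu v hv _
      rw [mem_singleton] at hu hv
      rw [hu, hv]
    · intro u hu v hv huv
      rw [mem_singleton] at hu hv
      rw [hu, hv] at huv
      exact absurd huv (T.loopless.irrefl a)
    · intro u hu v hv _ _ _ _ huv
      rw [mem_singleton] at hu hv
      rw [hu, hv] at huv
      exact absurd huv (T.loopless.irrefl a)

end Pool.Agent.Lib.MP_c5b475_co
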