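import Mathlib

set_option autoImplicit false

/-!
# Galvin's theorem on list edge colourings of bipartite multigraphs

A bipartite multigraph is given by a type `E` of edges with end maps `α`, `β`; `κ` is a proper edge
colouring with natural numbers.
-/

namespace Pool.Agent.Lib.MP_c5b475_co

open Finset

section

variable {E X Y : Type*} [DecidableEq E] [DecidableEq X] [DecidableEq Y]
  (α : E → X) (β : E → Y) (κ : E → ℕ)

/-- `e'` dominates `e`: at a common `α`-end the larger colour wins, at a common `β`-end the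
smaller colour wins. -/
def Dom (e e' : E) : Prop := (α e = α e' ∧ κ e < κ e') ∨ (β e = β e' ∧ κ e' < κ e)

instance (e e' : E) : Decidable (Dom α β κ e e') := by unfold Dom; infer_instance

/-- Existence of kernels (stable matchings). -/
theorem exists_kernel (hα : ∀ e e', α e = α e' → κ e = κ e' → e = e')
    (hβ : ∀ e e', β e = β e' → κ e = κ e' → e = e') (S : Finset E) :
    ∃ K ⊆ S, (∀ e ∈ K, ∀ e' ∈ K, (α e = α e' ∨ β e = β e') → e = e') ∧
      ∀ e ∈ S, e ∉ K → ∃ e' ∈ K, Dom α β κ e e' := by
  induction S using Finset.strongInduction with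
  | _ S ih =>
    set Tp := S.filter (fun e => ∀ e' ∈ S, α e' = α e → κ e' ≤ κ e) with hTp
    by_cases hind : ∀ e ∈ Tp, ∀ f ∈ Tp, β e = β f → e = f
    · refine ⟨Tp, filter_subset _ _, ?_, ?_⟩
      · rintro e he e' he' (h | h)
        · rw [hTp, mem_filter] at he he'
          exact hα e e' h (le_antisymm (he'.2 e he.1 h) (he.2 e' he'.1 h.symm))
        · exact hind e he e' he' h
      · intro e heS he
        obtain ⟨e0, he0, hmax⟩ := exists_max_image (S.filter (fun e' => α e' = α e)) κ
          ⟨e, by simp [heS]⟩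
        rw [mem_filter] at he0
        have htop : e0 ∈ Tp := by
          rw [hTp, mem_filter]
          refine ⟨he0.1, fun e' he' h => hmax e' ?_⟩
          rw [mem_filter]
          exact ⟨he', h.trans he0.2⟩
        refine ⟨e0, htop, Or.inl ⟨he0.2.symm, ?_⟩⟩
        have hle := hmax e (by simp [heS])
        rcases hle.lt_or_eq with h | h
        · exact h
        · exfalso
          apply he
          rw [hα e e0 he0.2.symm h]
          exact htop
    · push Not at hind
      obtain ⟨e1, he1, f1, hf1, hβ1, hne1⟩ := hind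
      -- order the two by colour
      obtain ⟨e, he, f, hf, hβef, hκ⟩ : ∃ e ∈ Tp, ∃ f ∈ Tp, β e = β f ∧ κ e < κ f := by
        rcases lt_trichotomy (κ e1) (κ f1) with h | h | h
        · exact ⟨e1, he1, f1, hf1, hβ1, h⟩
        · exact absurd (hβ e1 f1 hβ1 h) hne1
        · exact ⟨f1, hf1, e1, he1, hβ1.symm, h⟩
      rw [hTp, mem_filter] at he hf
      obtain ⟨K, hKS, hK1, hK2⟩ := ih (S.erase f) (erase_ssubset hf.1)
      refine ⟨K, hKS.trans (erase_subset _ _), hK1, ?_⟩
      intro g hg hgK
      by_cases hgf : g = f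
      · subst hgf
        by_cases heK : e ∈ K
        · exact ⟨e, heK, Or.inr ⟨hβef.symm, hκ⟩⟩
        · have hne : e ≠ g := by
            rintro rfl
            exact lt_irrefl _ hκ
          obtain ⟨k, hk, hd⟩ := hK2 e (mem_erase.mpr ⟨hne, he.1⟩) heK
          rcases hd with ⟨h1, h2⟩ | ⟨h1, h2⟩
          · have hkS := mem_of_mem_erase (hKS hk)
            exact absurd (he.2 k hkS h1.symm) (not_le.mpr h2)
          · exact ⟨k, hk, Or.inr ⟨hβef.symm.trans h1, h2.trans hκ⟩⟩
      · exact hK2 g (mem_erase.mpr ⟨hgf, hg⟩) hgK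

variable {C : Type*} [DecidableEq C]

/-- Galvin's theorem, general form. -/
theorem galvin_aux [Nonempty C] (hα : ∀ e e', α e = α e' → κ e = κ e' → e = e')
    (hβ : ∀ e e', β e = β e' → κ e = κ e' → e = e') (S : Finset E) :
    ∀ L : E → Finset C, (∀ e ∈ S, (S.filter (fun e' => Dom α β κ e e')).card < (L e).card) →
    ∃ x : E → C, (∀ e ∈ S, x e ∈ L e) ∧
      ∀ e ∈ S, ∀ e' ∈ S, e ≠ e' → (α e = α e' ∨ β e = β e') → x e ≠ x e' := by
  induction S using Finset.strongInduction with
  | _ S ih =>
    intro L hL
    rcases S.eq_empty_or_nonempty with rfl | ⟨e0, he0⟩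
    · exact ⟨fun _ => Classical.arbitrary C, by simp, by simp⟩
    · have hpos : 0 < (L e0).card := lt_of_le_of_lt (Nat.zero_le _) (hL e0 he0)
      obtain ⟨c, hc⟩ := card_pos.mp hpos
      obtain ⟨K, hKS, hK1, hK2⟩ := exists_kernel α β κ hα hβ (S.filter (fun e => c ∈ L e))
      have hKne : K.Nonempty := by
        by_contra h
        rw [not_nonempty_iff_eq_empty] at h
        obtain ⟨e', he', _⟩ := hK2 e0 (mem_filter.mpr ⟨he0, hc⟩) (by rw [h]; exact notMem_empty _)
        rw [h] at he'
        exact absurd he' (notMem_empty _)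
      have hKS' : K ⊆ S := hKS.trans (filter_subset _ _)
      have hss : S \ K ⊂ S := by
        refine sdiff_ssubset hKS' hKne
      obtain ⟨x, hx1, hx2⟩ := ih (S \ K) hss (fun e => (L e).erase c) (by
        intro e he
        rw [mem_sdiff] at he
        have h1 := hL e he.1
        by_cases hce : c ∈ L e
        · obtain ⟨k, hk, hd⟩ := hK2 e (mem_filter.mpr ⟨he.1, hce⟩) he.2
          rw [card_erase_of_mem hce]
          have h2 : ((S \ K).filter (fun e' => Dom α β κ e e')).card <
              (S.filter (fun e' => Dom α β κ e e')).card := by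
            apply card_lt_card
            rw [ssubset_iff_of_subset (filter_subset_filter _ sdiff_subset)]
            exact ⟨k, mem_filter.mpr ⟨hKS' hk, hd⟩, fun h =>
              (mem_sdiff.mp (mem_filter.mp h).1).2 hk⟩
          omega
        · rw [erase_eq_of_notMem hce]
          refine lt_of_le_of_lt (card_le_card (filter_subset_filter _ sdiff_subset)) h1)
      refine ⟨fun e => if e ∈ K then c else x e, ?_, ?_⟩
      · intro e he
        by_cases h : e ∈ K
        · simp only [if_pos h]
          exact (mem_filter.mp (hKS h)).2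
        · simp only [if_neg h]
          exact mem_of_mem_erase (hx1 e (mem_sdiff.mpr ⟨he, h⟩))
      · intro e he e' he' hne hab
        by_cases h : e ∈ K <;> by_cases h' : e' ∈ K
        · exact absurd (hK1 e h e' h' hab) hne
        · simp only [if_pos h, if_neg h']
          have := hx1 e' (mem_sdiff.mpr ⟨he', h'⟩)
          exact (ne_of_mem_erase this).symm
        · simp only [if_neg h, if_pos h']
          have := hx1 e (mem_sdiff.mpr ⟨he, h⟩)
          exact ne_of_mem_erase this
        · simp only [if_neg h, if_neg h']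
          exact hx2 e (mem_sdiff.mpr ⟨he, h⟩) e' (mem_sdiff.mpr ⟨he', h'⟩) hne hab

/-- **Galvin's theorem** for bipartite multigraphs. -/
theorem galvin [Fintype E] (hα : ∀ e e', α e = α e' → κ e = κ e' → e = e')
    (hβ : ∀ e e', β e = β e' → κ e = κ e' → e = e') {D : ℕ} (hD : ∀ e, κ e < D)
    (L : E → Finset C) (hL : ∀ e, D ≤ (L e).card) :
    ∃ x : E → C, (∀ e, x e ∈ L e) ∧
      ∀ e e', e ≠ e' → (α e = α e' ∨ β e = β e') → x e ≠ x e' := by
  rcases isEmpty_or_nonempty E with hE | ⟨⟨e0⟩⟩
  · exact ⟨fun e => (hE.false e).elim, fun e => (hE.false e).elim, fun e => (hE.false e).elim⟩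
  have hC : Nonempty C := by
    have h1 := hL e0
    have h2 := hD e0
    obtain ⟨c, _⟩ := card_pos.mp (by omega : 0 < (L e0).card)
    exact ⟨c⟩
  obtain ⟨x, h1, h2⟩ := galvin_aux α β κ hα hβ univ L (by
    intro e _
    refine lt_of_lt_of_le ?_ (hL e)
    have hsub : (univ.filter (fun e' => Dom α β κ e e')).image κ ⊆ (range D).erase (κ e) := by
      intro j hj
      rw [mem_image] at hj
      obtain ⟨e', he', rfl⟩ := hj
      rw [mem_filter] at he'
      rw [mem_erase, mem_range]
      refine ⟨?_, hD e'⟩
      rcases he'.2 with ⟨_, h⟩ | ⟨_, h⟩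
      · exact h.ne'
      · exact h.ne
    have hinj : Set.InjOn κ (univ.filter (fun e' => Dom α β κ e e') : Finset E) := by
      intro a ha b hb hab
      rw [mem_coe, mem_filter] at ha hb
      rcases ha.2 with ⟨h1, h2⟩ | ⟨h1, h2⟩ <;> rcases hb.2 with ⟨h3, h4⟩ | ⟨h3, h4⟩
      · exact hα a b (h1.symm.trans h3) hab
      · omega
      · omega
      · exact hβ a b (h1.symm.trans h3) hab
    have h3 := card_le_card hsub
    rw [card_image_of_injOn hinj, card_erase_of_mem (mem_range.mpr (hD e)), card_range] at h3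
    have := hD e
    omega)
  exact ⟨x, fun e => h1 e (mem_univ e), fun e e' => h2 e (mem_univ e) e' (mem_univ e')⟩

end

end Pool.Agent.Lib.MP_c5b475_co
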